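import Pool.Agent.Helper79.CX.Fund

/-!
Project CX, module T1: a list `T` of tetrahedra `(sign, a, b, c, d)` with the conditions of
helper69's structure `Comb` gives a pseudomanifold `PM`, and the fundamental cycle is the signed
sum over the list.
-/

namespace Pool.CX

open Finset _root_.SV

set_option linter.unusedSectionVars false

/-- a tetrahedron with a sign -/
abbrev Tet (α : Type*) := Bool × α × α × α × α

/-- the faces with their signs -/
def facesT {α : Type*} (t : Tet α) : List (Bool × α × α × α) :=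
  [(t.1, t.2.2.1, t.2.2.2.1, t.2.2.2.2), (!t.1, t.2.1, t.2.2.2.1, t.2.2.2.2),
    (t.1, t.2.1, t.2.2.1, t.2.2.2.2), (!t.1, t.2.1, t.2.2.1, t.2.2.2.1)]

section gen

variable {V : Type*} [Fintype V] [LinearOrder V] [Nonempty V]

/-- the vertex tuple -/
def tupT (t : Tet V) : Fin 4 → V := ![t.2.1, t.2.2.1, t.2.2.2.1, t.2.2.2.2]

/-- the vertex set -/
def setT (t : Tet V) : Finset V := {t.2.1, t.2.2.1, t.2.2.2.1, t.2.2.2.2}

/-- the sign as a number -/
def sg (b : Bool) : ℤ := if b then 1 else -1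

theorem sg_not (b : Bool) : sg (!b) = - sg b := by cases b <;> rfl

/-- the tuple of a triangle -/
def triT (x : V × V × V) : Fin 3 → V := ![x.1, x.2.1, x.2.2]

/-- increasing tetrahedron -/
def IncT {α : Type*} [LT α] (t : Tet α) : Prop :=
  t.2.1 < t.2.2.1 ∧ t.2.2.1 < t.2.2.2.1 ∧ t.2.2.2.1 < t.2.2.2.2

theorem tupT_strictMono {t : Tet V} (h : IncT t) : StrictMono (tupT t) := by
  obtain ⟨h1, h2, h3⟩ := h
  rw [Fin.strictMono_iff_lt_succ]
  intro i
  fin_cases i
  · exact h1
  · exact h2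
  · exact h3

theorem setT_eq (t : Tet V) : setT t = Finset.univ.image (tupT t) := by
  ext v
  simp only [setT, Finset.mem_insert, Finset.mem_singleton, Finset.mem_image, Finset.mem_univ, true_and]
  constructor
  · rintro (h | h | h | h)
    · exact ⟨0, h.symm⟩
    · exact ⟨1, h.symm⟩
    · exact ⟨2, h.symm⟩
    · exact ⟨3, h.symm⟩
  · rintro ⟨i, hi⟩
    fin_cases i
    · exact Or.inl hi.symm
    · exact Or.inr (Or.inl hi.symm)
    · exact Or.inr (Or.inr (Or.inl hi.symm))
    · exact Or.inr (Or.inr (Or.inr hi.symm))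

theorem setT_card {t : Tet V} (h : IncT t) : (setT t).card = 4 := by
  rw [setT_eq, Finset.card_image_of_injective _ (tupT_strictMono h).injective]
  simp

theorem ordT_setT {t : Tet V} (h : IncT t) : ordT 3 (setT t) = tupT t := by
  refine (eq_ordT (tupT_strictMono h) (setT_card h) (fun i => ?_)).symm
  rw [setT_eq]
  exact Finset.mem_image_of_mem _ (Finset.mem_univ _)

theorem snd_eq_of_tupT {s t : Tet V} (h : tupT s = tupT t) : s.2 = t.2 := by
  obtain ⟨e, a, b, c, d⟩ := s
  obtain ⟨e', a', b', c', d'⟩ := t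
  have q0 : a = a' := congrFun h 0
  have q1 : b = b' := congrFun h 1
  have q2 : c = c' := congrFun h 2
  have q3 : d = d' := congrFun h 3
  rw [q0, q1, q2, q3]

theorem td_tupT (t : Tet V) : td 2 (Finsupp.single (tupT t) 1) =
    Finsupp.single (triT (t.2.2.1, t.2.2.2.1, t.2.2.2.2)) 1 - Finsupp.single (triT (t.2.1, t.2.2.2.1, t.2.2.2.2)) 1 +
    Finsupp.single (triT (t.2.1, t.2.2.1, t.2.2.2.2)) 1 - Finsupp.single (triT (t.2.1, t.2.2.1, t.2.2.2.1)) (1 : ℝ) := by
  rw [td_single, one_smul, Fin.sum_univ_four]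
  have e0 : tface V 2 0 (tupT t) = triT (t.2.2.1, t.2.2.2.1, t.2.2.2.2) := by
    funext i; fin_cases i <;> rfl
  have e1 : tface V 2 1 (tupT t) = triT (t.2.1, t.2.2.2.1, t.2.2.2.2) := by
    funext i; fin_cases i <;> rfl
  have e2 : tface V 2 2 (tupT t) = triT (t.2.1, t.2.2.1, t.2.2.2.2) := by
    funext i; fin_cases i <;> rfl
  have e3 : tface V 2 3 (tupT t) = triT (t.2.1, t.2.2.1, t.2.2.2.1) := by
    funext i; fin_cases i <;> rfl
  rw [e0, e1, e2, e3]
  have c0 : ((-1 : ℝ)) ^ ((0 : Fin 4) : ℕ) = 1 := by simp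
  have c1 : ((-1 : ℝ)) ^ ((1 : Fin 4) : ℕ) = -1 := by simp
  have c2 : ((-1 : ℝ)) ^ ((2 : Fin 4) : ℕ) = 1 := by
    show (-1 : ℝ) ^ 2 = 1
    norm_num
  have c3 : ((-1 : ℝ)) ^ ((3 : Fin 4) : ℕ) = -1 := by
    show (-1 : ℝ) ^ 3 = -1
    norm_num
  rw [c0, c1, c2, c3]
  simp only [one_smul, neg_smul]
  abel

/-- the chain of a list of signed triangles -/
noncomputable def sumTri (L : List (Bool × V × V × V)) : TC V 2 :=
  (L.map (fun x => (sg x.1 : ℝ) • Finsupp.single (triT x.2) (1 : ℝ))).sum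

theorem td_sgn (t : Tet V) : (sg t.1 : ℝ) • td 2 (Finsupp.single (tupT t) 1) = sumTri (facesT t) := by
  rw [td_tupT]
  simp only [sumTri, facesT, List.map_cons, List.map_nil, List.sum_cons, List.sum_nil, sg_not]
  push_cast
  simp only [smul_sub, smul_add, neg_smul]
  abel

theorem td_list (T : List (Tet V)) :
    (T.map (fun t => (sg t.1 : ℝ) • td 2 (Finsupp.single (tupT t) 1))).sum = sumTri (T.flatMap facesT) := by
  induction T with
  | nil => simp [sumTri]
  | cons t T ih =>
    rw [List.map_cons, List.sum_cons, ih, td_sgn]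
    simp only [sumTri, List.flatMap_cons, List.map_append, List.sum_append]

theorem sumTri_pairs (ks : List (V × V × V)) :
    sumTri (ks.flatMap (fun k => [(false, k), (true, k)])) = 0 := by
  induction ks with
  | nil => simp [sumTri]
  | cons k ks ih =>
    simp only [sumTri, List.flatMap_cons, List.map_append, List.sum_append] at ih ⊢
    rw [ih]
    simp [sg]

theorem triT_injective : Function.Injective (triT (V := V)) := by
  intro x y h
  have h0 := congrFun h 0
  have h1 := congrFun h 1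
  have h2 := congrFun h 2
  obtain ⟨a, b, c⟩ := x
  obtain ⟨a', b', c'⟩ := y
  simp only [triT] at h0 h1 h2
  simp at h0 h1 h2
  simp [h0, h1, h2]

/-- every triangle of a tetrahedron is one of its faces -/
theorem mem_faces {t : Tet V} (h : IncT t) {G : Finset V} (hG : G.card = 3) (hGt : G ⊆ setT t) :
    ∃ x : V × V × V, triT x = ordT 2 G ∧ ∃ s, (s, x) ∈ facesT t := by
  have hd : (setT t \ G).card = 1 := by rw [Finset.card_sdiff_of_subset hGt, setT_card h]; omega
  obtain ⟨v, hv⟩ := Finset.card_eq_one.1 hd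
  have hvs : v ∈ setT t := by
    have : v ∈ setT t \ G := by rw [hv]; simp
    exact (Finset.mem_sdiff.1 this).1
  rw [setT_eq] at hvs
  obtain ⟨i, _, hi⟩ := Finset.mem_image.1 hvs
  have hf : tface V 2 i (tupT t) = ordT 2 G := by
    refine eq_ordT (strictMono_tface (tupT_strictMono h) i) hG (fun j => ?_)
    by_contra hcon
    have h3 : tupT t (i.succAbove j) ∈ setT t \ G :=
      Finset.mem_sdiff.2 ⟨by rw [setT_eq]; exact Finset.mem_image_of_mem _ (Finset.mem_univ _), hcon⟩
    rw [hv, Finset.mem_singleton, ← hi] at h3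
    exact Fin.succAbove_ne i j ((tupT_strictMono h).injective h3)
  have hff : ∀ x : V × V × V, (∀ j, triT x j = tface V 2 i (tupT t) j) → triT x = ordT 2 G := by
    intro x hx
    rw [← hf]
    funext j
    exact hx j
  fin_cases i
  · exact ⟨(t.2.2.1, t.2.2.2.1, t.2.2.2.2), hff _ (fun j => by fin_cases j <;> rfl), t.1, by simp [facesT]⟩
  · exact ⟨(t.2.1, t.2.2.2.1, t.2.2.2.2), hff _ (fun j => by fin_cases j <;> rfl), !t.1, by simp [facesT]⟩
  · exact ⟨(t.2.1, t.2.2.1, t.2.2.2.2), hff _ (fun j => by fin_cases j <;> rfl), t.1, by simp [facesT]⟩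
  · exact ⟨(t.2.1, t.2.2.1, t.2.2.2.1), hff _ (fun j => by fin_cases j <;> rfl), !t.1, by simp [facesT]⟩

/-- the vertices of a face are vertices of the tetrahedron -/
theorem face_sub {t : Tet V} {s : Bool} {x : V × V × V} (hx : (s, x) ∈ facesT t) :
    Finset.univ.image (triT x) ⊆ setT t ∧ (IncT t → StrictMono (triT x)) := by
  obtain ⟨e, a, b, c, d⟩ := t
  simp only [facesT, List.mem_cons, Prod.mk.injEq, List.mem_nil_iff, or_false] at hx
  have hmono : ∀ p q r : V, p < q → q < r → StrictMono (triT (p, q, r)) := by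
    intro p q r h1 h2
    rw [Fin.strictMono_iff_lt_succ]
    intro i
    fin_cases i
    · exact h1
    · exact h2
  have hsub : ∀ p q r : V, ({p, q, r} : Finset V) ⊆ setT (e, a, b, c, d) →
      Finset.univ.image (triT (p, q, r)) ⊆ setT (e, a, b, c, d) := by
    intro p q r h v hv
    obtain ⟨i, _, rfl⟩ := Finset.mem_image.1 hv
    apply h
    fin_cases i <;> simp [triT]
  rcases hx with ⟨_, rfl⟩ | ⟨_, rfl⟩ | ⟨_, rfl⟩ | ⟨_, rfl⟩
  · refine ⟨hsub _ _ _ ?_, fun h => hmono _ _ _ h.2.1 h.2.2⟩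
    intro v hv
    simp only [setT, Finset.mem_insert, Finset.mem_singleton] at hv ⊢
    tauto
  · refine ⟨hsub _ _ _ ?_, fun h => hmono _ _ _ (h.1.trans h.2.1) h.2.2⟩
    intro v hv
    simp only [setT, Finset.mem_insert, Finset.mem_singleton] at hv ⊢
    tauto
  · refine ⟨hsub _ _ _ ?_, fun h => hmono _ _ _ h.1 (h.2.1.trans h.2.2)⟩
    intro v hv
    simp only [setT, Finset.mem_insert, Finset.mem_singleton] at hv ⊢
    tauto
  · refine ⟨hsub _ _ _ ?_, fun h => hmono _ _ _ h.1 h.2.1⟩
    intro v hv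
    simp only [setT, Finset.mem_insert, Finset.mem_singleton] at hv ⊢
    tauto

theorem nodup_flatMap_unique {α β : Type*} {T : List α} {f : α → List β} (h : (T.flatMap f).Nodup) {x : β}
    {s t : α} (hs : s ∈ T) (ht : t ∈ T) (hxs : x ∈ f s) (hxt : x ∈ f t) : s = t := by
  by_contra hne
  rw [List.nodup_flatMap] at h
  rcases List.mem_iff_getElem.1 hs with ⟨i, hi, rfl⟩
  rcases List.mem_iff_getElem.1 ht with ⟨j, hj, rfl⟩
  have h2 := List.pairwise_iff_getElem.1 h.2
  rcases lt_trichotomy i j with hij | hij | hij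
  · exact (h2 i j hi hj hij) hxs hxt
  · subst hij; exact hne rfl
  · exact (h2 j i hj hi hij) hxt hxs

theorem nodup_pairs {ks : List (V × V × V)} (h : ks.Nodup) :
    (ks.flatMap (fun k => [(false, k), (true, k)])).Nodup := by
  rw [List.nodup_flatMap]
  refine ⟨fun k _ => by simp, h.imp ?_⟩
  intro a b hab x hx hx'
  simp only [List.mem_cons, List.mem_nil_iff, or_false] at hx hx'
  rcases hx with rfl | rfl <;> rcases hx' with h | h <;> simp_all

/-- facets of a list -/
def facT (T : List (Tet V)) : Finset (Finset V) := (T.map setT).toFinset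

open Classical in
/-- signs of a list -/
noncomputable def epsT (T : List (Tet V)) (s : Finset V) : ℤ :=
  if ∃ t ∈ T, setT t = s ∧ t.1 = true then 1 else -1

/-- the conditions on the list -/
structure CombT (T : List (Tet V)) : Prop where
  incr : ∀ t ∈ T, IncT t
  inj : ∀ s ∈ T, ∀ t ∈ T, s.2 = t.2 → s = t
  pairs : ∃ ks : List (V × V × V), ks.Nodup ∧
    (T.flatMap facesT).Perm (ks.flatMap (fun k => [(false, k), (true, k)]))
  conn : ∀ t ∈ T, ∀ t' ∈ T, Relation.ReflTransGen
    (fun a b : Tet V => a ∈ T ∧ b ∈ T ∧ ∃ k s s', (s, k) ∈ facesT a ∧ (s', k) ∈ facesT b) t t'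
  ne : T ≠ []

variable {T : List (Tet V)}

theorem CombT.nodup_faces (h : CombT T) : (T.flatMap facesT).Nodup := by
  obtain ⟨ks, hks, hp⟩ := h.pairs
  exact hp.nodup_iff.2 (nodup_pairs hks)

theorem CombT.nodup (h : CombT T) : T.Nodup := by
  have h1 := h.nodup_faces
  rw [List.nodup_flatMap] at h1
  refine h1.2.imp ?_
  rintro a _ hab rfl
  exact hab (List.mem_cons_self) (List.mem_cons_self)

theorem CombT.set_inj (h : CombT T) {s t : Tet V} (hs : s ∈ T) (ht : t ∈ T) (hst : setT s = setT t) : s = t :=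
  h.inj s hs t ht (snd_eq_of_tupT (by rw [← ordT_setT (h.incr s hs), ← ordT_setT (h.incr t ht), hst]))

theorem CombT.eps (h : CombT T) {t : Tet V} (ht : t ∈ T) : epsT T (setT t) = sg t.1 := by
  classical
  rw [epsT, sg]
  by_cases h1 : t.1 = true
  · rw [if_pos ⟨t, ht, rfl, h1⟩, if_pos h1]
  · rw [if_neg, if_neg h1]
    rintro ⟨s, hs, hst, hs1⟩
    rw [h.set_inj hs ht hst] at hs1
    exact h1 hs1

theorem CombT.sum_eq (h : CombT T) {A : Type*} [AddCommMonoid A] (f : Finset V → A) :
    ∑ s ∈ facT T, f s = (T.map (fun t => f (setT t))).sum := by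
  classical
  rw [facT, List.sum_toFinset, List.map_map]
  · rfl
  · refine (List.nodup_map_iff_inj_on h.nodup).2 ?_
    intro s hs t ht hst
    exact h.set_inj hs ht hst

theorem CombT.fch_eq (h : CombT T) : fch (facT T) 3 (fun s => (epsT T s : ℝ)) =
    (T.map (fun t => (sg t.1 : ℝ) • Finsupp.single (tupT t) (1 : ℝ))).sum := by
  rw [fch, h.sum_eq]
  congr 1
  refine List.map_congr_left (fun t ht => ?_)
  rw [h.eps ht, ordT_setT (h.incr t ht)]

/-- the image of the sum over the list in `V → ℝ` -/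
theorem CombT.zAmb_eq (h : CombT T) : zAmb (facT T) 2 (epsT T) =
    (T.map (fun t => (sg t.1 : ℝ) • Finsupp.single (Cvx.comb (fun i => dl (tupT t i)) : Sx (V → ℝ) 3) (1 : ℝ))).sum := by
  rw [zAmb, h.sum_eq]
  congr 1
  refine List.map_congr_left (fun t ht => ?_)
  rw [h.eps ht, ordT_setT (h.incr t ht)]

theorem mem_facT {s : Finset V} : s ∈ facT T ↔ ∃ t ∈ T, setT t = s := by
  simp [facT]

theorem CombT.adj (h : CombT T) {s t : Tet V} (hs : s ∈ T) (ht : t ∈ T) (hne : s ≠ t) {k : V × V × V}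
    {e e' : Bool} (hk : (e, k) ∈ facesT s) (hk' : (e', k) ∈ facesT t) : Adj (facT T) 2 (setT s) (setT t) := by
  classical
  have hsub : Finset.univ.image (triT k) ⊆ setT s ∩ setT t :=
    Finset.subset_inter (face_sub hk).1 (face_sub hk').1
  have hmono := (face_sub hk).2 (h.incr s hs)
  have hcard : (Finset.univ.image (triT k)).card = 3 := by
    rw [Finset.card_image_of_injective _ hmono.injective]
    simp
  have hset : setT s ≠ setT t := fun he => hne (h.set_inj hs ht he)
  have hle : (setT s ∩ setT t).card ≤ 3 := by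
    by_contra hcon
    push Not at hcon
    have h1 : setT s ∩ setT t = setT s :=
      Finset.eq_of_subset_of_card_le Finset.inter_subset_left (by rw [setT_card (h.incr s hs)]; omega)
    have h2 : setT s ∩ setT t = setT t :=
      Finset.eq_of_subset_of_card_le Finset.inter_subset_right (by rw [setT_card (h.incr t ht)]; omega)
    exact hset (h1.symm.trans h2)
  have heq : Finset.univ.image (triT k) = setT s ∩ setT t :=
    Finset.eq_of_subset_of_card_le hsub (by rw [hcard]; exact hle)
  have hkG : triT k = ordT 2 (setT s ∩ setT t) := by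
    rw [← heq]
    exact eq_ordT hmono hcard (fun i => Finset.mem_image_of_mem _ (Finset.mem_univ _))
  have hnd := h.nodup_faces
  refine ⟨mem_facT.2 ⟨s, hs, rfl⟩, mem_facT.2 ⟨t, ht, rfl⟩, hset, by rw [← heq]; exact hcard, ?_⟩
  intro r hr hsubr
  obtain ⟨q, hq, rfl⟩ := mem_facT.1 hr
  obtain ⟨x, hx, e'', hxq⟩ := mem_faces (h.incr q hq) (by rw [← heq]; exact hcard) hsubr
  have hxk : x = k := triT_injective (by rw [hx, hkG])
  subst hxk
  have hee : e ≠ e' := by
    intro he
    subst he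
    exact hne (nodup_flatMap_unique hnd hs ht hk hk')
  by_cases h1 : e'' = e
  · left
    subst h1
    rw [nodup_flatMap_unique hnd hq hs hxq hk]
  · right
    have h2 : e'' = e' := by
      cases e <;> cases e' <;> cases e'' <;> simp_all
    subst h2
    rw [nodup_flatMap_unique hnd hq ht hxq hk']

/-- **The list certificate gives a pseudomanifold.** -/
theorem CombT.pm (h : CombT T) : PM (facT T) 2 (epsT T) := by
  classical
  refine ⟨?_, ?_, ?_, ?_⟩
  · intro s hs
    obtain ⟨t, ht, rfl⟩ := mem_facT.1 hs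
    exact setT_card (h.incr t ht)
  · intro s hs
    obtain ⟨t, ht, rfl⟩ := mem_facT.1 hs
    rw [h.eps ht]
    cases t.1 <;> simp [sg]
  · rw [h.fch_eq, map_list_sum, List.map_map]
    have h1 : (T.map ((td 2 : TC V 3 →ₗ[ℝ] TC V 2) ∘ fun t : Tet V => (sg t.1 : ℝ) • Finsupp.single (tupT t) (1 : ℝ))) =
        T.map (fun t => (sg t.1 : ℝ) • td 2 (Finsupp.single (tupT t) 1)) := by
      refine List.map_congr_left (fun t _ => ?_)
      simp only [Function.comp_apply, map_smul]
    rw [h1, td_list]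
    obtain ⟨ks, _, hp⟩ := h.pairs
    have h2 : sumTri (T.flatMap facesT) = sumTri (ks.flatMap (fun k => [(false, k), (true, k)])) :=
      (hp.map _).sum_eq
    rw [h2, sumTri_pairs]
  · obtain ⟨t₀, ht₀⟩ := List.exists_mem_of_ne_nil T h.ne
    refine ⟨setT t₀, mem_facT.2 ⟨t₀, ht₀, rfl⟩, ?_⟩
    intro s hs
    obtain ⟨t, ht, rfl⟩ := mem_facT.1 hs
    have := h.conn t₀ ht₀ t ht
    induction this with
    | refl => exact Relation.ReflTransGen.refl
    | @tail b c _ hbc ih =>
      obtain ⟨hb, hc, k, e, e', h1, h2⟩ := hbc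
      have ih' := ih hb (mem_facT.2 ⟨b, hb, rfl⟩)
      by_cases hne : b = c
      · rw [← hne]; exact ih'
      · exact ih'.tail (h.adj hb hc hne h1 h2)

/-! ### the fundamental cycle as a sum over the list -/

/-- **The fundamental class for a list certificate.** `τ t` is the affine singular simplex of the
tetrahedron `t` in `S`; `zK` is the signed sum over the list. -/
theorem CombT.fund (h : CombT T) (S : Set (V → ℝ))
    (hS : ∀ x, x ∈ S ↔ x ∈ stdSimplex ℝ V ∧ ∃ s ∈ facT T, ∀ v, x v ≠ 0 → v ∈ s)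
    (τ : Tet V → Pool.SV.Sing ↥S 3)
    (hτ : ∀ t ∈ T, ∀ x v, (τ t x).1 v = ∑ i, if tupT t i = v then x i else 0) :
    let zK : ChainR ℤ ↥S 3 := (T.map (fun t => Finsupp.single (τ t) (sg t.1))).sum
    bdR ℤ ↥S 2 zK = 0 ∧
    (∀ z : ChainR ℤ ↥S 3, bdR ℤ ↥S 2 z = 0 →
      ∃ (m : ℤ) (b : ChainR ℤ ↥S 4), z - m • zK = bdR ℤ ↥S 3 b) ∧
    (∀ (m : ℤ) (b : ChainR ℤ ↥S 4), m • zK = bdR ℤ ↥S 3 b → m = 0) := by
  classical
  intro zK
  have hS' : S = rz (facT T) := by
    rw [← rz_eq]
    ext x
    exact hS x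
  refine fund_int h.pm S hS' zK ?_
  rw [h.zAmb_eq]
  have h1 : toR zK = (T.map (fun t => Finsupp.single (τ t) ((sg t.1 : ℤ) : ℝ))).sum := by
    have : ∀ L : List (Tet V), toR ((L.map (fun t => Finsupp.single (τ t) (sg t.1))).sum) =
        (L.map (fun t => Finsupp.single (τ t) ((sg t.1 : ℤ) : ℝ))).sum := by
      intro L
      induction L with
      | nil => simp [toR_zero]
      | cons t L ih => rw [List.map_cons, List.sum_cons, toR_add, ih, toR_single, List.map_cons, List.sum_cons]
    exact this T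
  rw [h1, map_list_sum, List.map_map]
  congr 1
  refine List.map_congr_left (fun t ht => ?_)
  simp only [Function.comp_apply]
  have h2 : (inclS S).comp (τ t) = (Cvx.comb (fun i => dl (tupT t i)) : Sx (V → ℝ) 3) := by
    refine ContinuousMap.ext (fun x => funext (fun v => ?_))
    show (τ t x).1 v = _
    rw [hτ t ht, comb_dl_apply]
  rw [smap_single, h2, Finsupp.smul_single, smul_eq_mul, mul_one]

end gen

end Pool.CX
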