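import Pool.Agent.Helper79.CX.Bridge
import Pool.Agent.Helper69.CX.Check
import Pool.Agent.Helper69.CX.Conn

/-!
Project CX: everything combinatorial from the two Boolean checks of helper69.
-/

namespace Pool.CX

open Finset _root_.SV Pool.Agent.Helper66.AF Helper69.CX

/-- **All the combinatorial hypotheses from `chkComb` and `chkInj`.** -/
theorem comb_all {n B bits bits' : ℕ} [NeZero n] {T : List (ST ℕ)} {ps : List ℕ}
    (h : chkComb n B bits T ps = true) (hI : chkInj B bits' T = true) :
    CombT (TF n T) ∧
    (∀ v : Fin n, (((link ((TF n T).map orient) v).flatMap triEdges).map Prod.swap).Perm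
      ((link ((TF n T).map orient) v).flatMap triEdges)) ∧
    (∀ v w : Fin n, Relation.ReflTransGen
      (fun a b => ∃ s ∈ (TF n T).map orient, a ∈ verts s ∧ b ∈ verts s) v w) ∧
    (∀ v : Fin n, ∃ t ∈ (TF n T).map orient, v ∈ verts t) := by
  have hc := comb_of_chk h
  have hi : chkIncr n T = true := by
    unfold chkComb at h
    simp only [Bool.and_eq_true] at h
    exact h.1.1.1.2
  have : Nonempty (Fin n) := ⟨0⟩
  refine ⟨combT_of_comb hc (inj_of_chk (bits := bits) hi hI), fun v => ?_, hc.conn_vertices, fun v => ?_⟩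
  · obtain ⟨ks, _, hp⟩ := hc.pairs
    exact closed_of_pairs hp v
  · obtain ⟨t, ht, hv⟩ := hc.all v
    refine ⟨orient t, List.mem_map_of_mem ht, mem_vs_orient.2 ?_⟩
    simpa [vs] using hv

end Pool.CX
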