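import Pool.Agent.Helper79.CX.Sort

/-! Project CX, fundamental class: simplicial approximation of singular chains. -/

namespace SV

open Finset Cvx

set_option linter.unusedSectionVars false

variable {V : Type*} [Fintype V] [LinearOrder V] [Nonempty V]

/-- the realisation of the simplicial complex with the facets in `F` -/
def rz {V : Type*} [Fintype V] (F : Finset (Finset V)) : Set (V → ℝ) :=
  {x | (∀ v, 0 ≤ x v) ∧ ∑ v, x v = 1 ∧ ∃ s ∈ F, ∀ v, v ∉ s → x v = 0}

/-- a vertex with the largest coordinate -/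
noncomputable def lab (x : V → ℝ) : V := (Finite.exists_max x).choose

theorem le_lab (x : V → ℝ) (v : V) : x v ≤ x (lab x) := (Finite.exists_max x).choose_spec v

theorem lab_large {x : V → ℝ} (h1 : ∑ v, x v = 1) : (Fintype.card V : ℝ)⁻¹ ≤ x (lab x) := by
  have h2 : ∑ v, x v ≤ ∑ _v : V, x (lab x) := Finset.sum_le_sum (fun v _ => le_lab x v)
  rw [h1, Finset.sum_const, Finset.card_univ, nsmul_eq_mul] at h2
  have hc : (0 : ℝ) < Fintype.card V := by exact_mod_cast Fintype.card_pos
  rw [inv_eq_one_div, div_le_iff₀ hc, mul_comm]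
  exact h2

theorem lab_pos {x : V → ℝ} (h1 : ∑ v, x v = 1) : 0 < x (lab x) := by
  have hc : (0 : ℝ) < Fintype.card V := by exact_mod_cast Fintype.card_pos
  exact lt_of_lt_of_le (inv_pos.2 hc) (lab_large h1)

/-- the tuple of labels of the vertices of a singular simplex -/
noncomputable def labT (k : ℕ) (σ : Sx (V → ℝ) k) : Fin (k + 1) → V := fun i => lab (σ (vtx i))

/-- simplicial approximation -/
noncomputable def apx (V : Type*) [Fintype V] [LinearOrder V] [Nonempty V] (k : ℕ) :
    SC (V → ℝ) k →ₗ[ℝ] TC V k := Finsupp.lmapDomain ℝ ℝ (labT k)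

@[simp] theorem apx_single (k : ℕ) (σ : Sx (V → ℝ) k) (r : ℝ) :
    apx V k (Finsupp.single σ r) = Finsupp.single (labT k σ) r := by
  simp [apx]

theorem td_apx (k : ℕ) (c : SC (V → ℝ) (k + 1)) : td k (apx V (k + 1) c) = apx V k (bd k c) :=
  gd_map (X := Sx (V → ℝ)) (sface (V → ℝ)) (Y := fun k => (Fin (k + 1) → V)) (tface V)
    (fun k σ => labT k σ) (fun k i σ => by
      funext j
      show lab (σ (dface k i (vtx j))) = lab (σ (vtx (i.succAbove j)))
      rw [dface_vtx]) k c

theorem IntC.apx {k : ℕ} {c : SC (V → ℝ) k} (h : IntC c) : IntC (SV.apx V k c) := by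
  refine IntC.lin _ (fun p => ?_) h
  rw [apx_single]
  exact IntC.single_one _

/-- the vertices of the realisation -/
def dl (v : V) : V → ℝ := Pi.single v 1

theorem dl_apply (v w : V) : dl v w = if w = v then 1 else 0 := by
  simp [dl, Pi.single_apply]

/-- affine simplices with vertices in `V` -/
noncomputable def rl (V : Type*) [Fintype V] [LinearOrder V] (k : ℕ) : TC V k →ₗ[ℝ] SC (V → ℝ) k :=
  (real k).comp (tmap dl k)

theorem rl_single (k : ℕ) (p : Fin (k + 1) → V) (r : ℝ) :
    rl V k (Finsupp.single p r) = Finsupp.single (comb (fun i => dl (p i))) r := by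
  simp [rl]

theorem bd_rl (k : ℕ) (c : TC V (k + 1)) : bd k (rl V (k + 1) c) = rl V k (td k c) := by
  simp only [rl, LinearMap.comp_apply]
  rw [bd_real, td_tmap]

theorem IntC.rl {k : ℕ} {c : TC V k} (h : IntC c) : IntC (SV.rl V k c) := by
  refine IntC.lin _ (fun p => ?_) h
  rw [rl_single]
  exact IntC.single_one _

theorem comb_dl_apply {k : ℕ} (p : Fin (k + 1) → V) (t : Dl k) (v : V) :
    (comb (fun i => dl (p i)) t : V → ℝ) v = ∑ i, if p i = v then t i else 0 := by
  show (∑ i, t i • dl (p i)) v = _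
  rw [Finset.sum_apply]
  refine Finset.sum_congr rfl (fun i _ => ?_)
  rw [Pi.smul_apply, dl_apply, smul_eq_mul]
  by_cases h : p i = v
  · simp [h]
  · simp [h, Ne.symm h]

/-- the closed simplex spanned by a set of vertices -/
def csx (s : Set V) : Set (V → ℝ) := {x | (∀ v, 0 ≤ x v) ∧ ∑ v, x v = 1 ∧ ∀ v, v ∉ s → x v = 0}

theorem comb_dl_mem {k : ℕ} (p : Fin (k + 1) → V) (s : Set V) (hp : ∀ i, p i ∈ s) (t : Dl k) :
    (comb (fun i => dl (p i)) t : V → ℝ) ∈ csx s := by
  refine ⟨fun v => ?_, ?_, fun v hv => ?_⟩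
  · rw [comb_dl_apply]
    exact Finset.sum_nonneg (fun i _ => by split_ifs; exacts [stdSimplex.zero_le t i, le_rfl])
  · simp only [comb_dl_apply]
    rw [Finset.sum_comm]
    simp only [Finset.sum_ite_eq, Finset.mem_univ, if_true]
    exact stdSimplex.sum_eq_one t
  · rw [comb_dl_apply]
    refine Finset.sum_eq_zero (fun i _ => ?_)
    rw [if_neg]
    rintro rfl
    exact hv (hp i)

theorem csx_convex (s : Set V) : Convex ℝ (csx s) := by
  intro x hx y hy a b ha hb hab
  refine ⟨fun v => ?_, ?_, fun v hv => ?_⟩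
  · simp only [Pi.add_apply, Pi.smul_apply, smul_eq_mul]
    exact add_nonneg (mul_nonneg ha (hx.1 v)) (mul_nonneg hb (hy.1 v))
  · simp only [Pi.add_apply, Pi.smul_apply, smul_eq_mul]
    rw [Finset.sum_add_distrib, ← Finset.mul_sum, ← Finset.mul_sum, hx.2.1, hy.2.1]
    linarith
  · simp only [Pi.add_apply, Pi.smul_apply, smul_eq_mul]
    rw [hx.2.2 v hv, hy.2.2 v hv]
    ring

theorem csx_sub_rz {F : Finset (Finset V)} {s : Finset V} (hs : s ∈ F) : csx (s : Set V) ⊆ rz F :=
  fun x hx => ⟨hx.1, hx.2.1, s, hs, fun v hv => hx.2.2 v (by simpa using hv)⟩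

theorem mem_rz_iff {F : Finset (Finset V)} {x : V → ℝ} : x ∈ rz F ↔ ∃ s ∈ F, x ∈ csx (s : Set V) := by
  constructor
  · rintro ⟨h1, h2, s, hs, h3⟩
    exact ⟨s, hs, h1, h2, fun v hv => h3 v (by simpa using hv)⟩
  · rintro ⟨s, hs, h⟩
    exact csx_sub_rz hs h

/-- tuple chains all of whose tuples lie in a facet -/
def TK (F : Finset (Finset V)) {k : ℕ} (c : TC V k) : Prop := ∀ p ∈ c.support, ∃ s ∈ F, ∀ i, p i ∈ s

section TK

variable {F : Finset (Finset V)} {k : ℕ}

theorem TK.zero : TK F (0 : TC V k) := by intro q hq; simp at hq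

theorem TK.add {c c' : TC V k} (h : TK F c) (h' : TK F c') : TK F (c + c') := by
  classical
  intro q hq
  rcases Finset.mem_union.1 (Finsupp.support_add hq) with h1 | h1
  · exact h q h1
  · exact h' q h1

theorem TK.smul {c : TC V k} (r : ℝ) (h : TK F c) : TK F (r • c) :=
  fun q hq => h q (Finsupp.support_smul hq)

theorem TK.sum {ι : Type*} (s : Finset ι) (f : ι → TC V k) (h : ∀ i ∈ s, TK F (f i)) :
    TK F (∑ i ∈ s, f i) := by
  classical
  induction s using Finset.induction_on with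
  | empty => simpa using TK.zero
  | insert a s ha ih =>
    rw [Finset.sum_insert ha]
    exact (h a (by simp)).add (ih (fun i hi => h i (by simp [hi])))

/-- operators which do not add new vertices preserve tuple chains of the complex -/
theorem TK.lin {l : ℕ} (f : TC V k →ₗ[ℝ] TC V l)
    (hf : ∀ p : Fin (k + 1) → V, TIn (Set.range p) (f (Finsupp.single p 1))) {c : TC V k} (h : TK F c) :
    TK F (f c) := by
  rw [fsum c, map_sum]
  refine TK.sum _ _ (fun p hp => ?_)
  rw [map_smul]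
  refine TK.smul _ (fun q hq => ?_)
  obtain ⟨s, hs, hps⟩ := h p hp
  refine ⟨s, hs, fun i => ?_⟩
  obtain ⟨j, hj⟩ := hf p q hq i
  rw [← hj]
  exact hps j

theorem TK.rl_SIn {c : TC V k} (h : TK F c) : SIn (rz F) (rl V k c) := by
  refine SIn.lin _ _ (fun p hp => ?_)
  rw [rl_single]
  obtain ⟨s, hs, hps⟩ := h p hp
  exact SIn.single _ (fun t => csx_sub_rz hs (comb_dl_mem p _ hps t))

end TK

/-- small simplices: every vertex label is a vertex of the carrier of every point -/
def SmallS (k : ℕ) (σ : Sx (V → ℝ) k) : Prop := ∀ i t, 0 < σ t (labT k σ i)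

/-- the straight line homotopy from a singular simplex to its approximation -/
noncomputable def slH (V : Type*) [Fintype V] [LinearOrder V] [Nonempty V] (k : ℕ) (σ : Sx (V → ℝ) k) :
    C(ℝ × Dl k, V → ℝ) :=
  ⟨fun z => (1 - z.1) • σ z.2 + z.1 • comb (fun i => dl (labT k σ i)) z.2, by fun_prop⟩

theorem slH_apply (k : ℕ) (σ : Sx (V → ℝ) k) (u : ℝ) (t : Dl k) :
    slH V k σ (u, t) = (1 - u) • σ t + u • comb (fun i => dl (labT k σ i)) t := rfl

theorem slH_nat : HNat (slH V) := by
  intro k σ i u t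
  rw [slH_apply, slH_apply, comb_face]
  have : ∀ j, labT k (sface (V → ℝ) k i σ) j = labT (k + 1) σ (i.succAbove j) := by
    intro j
    show lab (σ (dface k i (vtx j))) = lab (σ (vtx (i.succAbove j)))
    rw [dface_vtx]
  simp only [this]
  rfl

theorem enOp_zero (k : ℕ) (c : SC (V → ℝ) k) : enOp 0 (slH V) k c = c := by
  have : enOp 0 (slH V) k = LinearMap.id := by
    refine Finsupp.lhom_ext' (fun σ => LinearMap.ext_ring ?_)
    simp only [LinearMap.comp_apply, Finsupp.lsingle_apply, LinearMap.id_apply]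
    rw [enOp, ext_single, one_smul]
    congr 1
    ext t
    show slH V k σ (0, t) _ = _
    rw [slH_apply]
    simp
  exact LinearMap.congr_fun this c

theorem enOp_one (k : ℕ) (c : SC (V → ℝ) k) : enOp 1 (slH V) k c = rl V k (apx V k c) := by
  have : enOp 1 (slH V) k = (rl V k).comp (apx V k) := by
    refine Finsupp.lhom_ext' (fun σ => LinearMap.ext_ring ?_)
    simp only [LinearMap.comp_apply, Finsupp.lsingle_apply]
    rw [enOp, ext_single, one_smul, apx_single, rl_single]
    congr 1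
    ext t
    show slH V k σ (1, t) _ = _
    rw [slH_apply]
    simp
  exact LinearMap.congr_fun this c

/-- a cycle of small simplices is homologous to its approximation -/
theorem bd_slH (k : ℕ) (c : SC (V → ℝ) (k + 1)) :
    bd (k + 1) (prOp (slH V) (k + 1) c) = rl V (k + 1) (apx V (k + 1) c) - c - prOp (slH V) k (bd k c) := by
  rw [bd_prOp _ slH_nat, enOp_zero, enOp_one]

theorem slH_SIn (F : Finset (Finset V)) (k : ℕ) (c : SC (V → ℝ) k) (hc : SIn (rz F) c)
    (hs : ∀ σ ∈ c.support, SmallS k σ) : SIn (rz F) (prOp (slH V) k c) := by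
  refine SIn.lin _ _ (fun σ hσ => ?_)
  refine prOp_SIn _ k σ _ (fun u hu t => ?_)
  rw [slH_apply]
  obtain ⟨s, hsF, hx⟩ := mem_rz_iff.1 (hc σ hσ t)
  refine csx_sub_rz hsF ?_
  refine csx_convex _ hx (comb_dl_mem _ _ (fun i => ?_) t) (by linarith [hu.2]) hu.1 (by ring)
  by_contra hcon
  have := hs σ hσ i t
  rw [hx.2.2 _ hcon] at this
  exact lt_irrefl _ this

theorem apx_TK (F : Finset (Finset V)) (k : ℕ) (c : SC (V → ℝ) k) (hc : SIn (rz F) c)
    (hs : ∀ σ ∈ c.support, SmallS k σ) : TK F (apx V k c) := by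
  rw [fsum c, map_sum]
  refine TK.sum _ _ (fun σ hσ => ?_)
  rw [map_smul, apx_single]
  refine TK.smul _ (fun q hq => ?_)
  have h1 := Finsupp.support_single_subset hq
  rw [Finset.mem_singleton] at h1
  obtain ⟨s, hsF, hx⟩ := mem_rz_iff.1 (hc σ hσ (vtx 0))
  refine ⟨s, hsF, fun i => ?_⟩
  rw [h1]
  by_contra hcon
  have := hs σ hσ i (vtx 0)
  rw [hx.2.2 _ (by simpa using hcon)] at this
  exact lt_irrefl _ this

/-- iterated subdivisions of a chain in the complex are small -/
theorem exists_smallS (F : Finset (Finset V)) (k : ℕ) (c : SC (V → ℝ) k) (hc : SIn (rz F) c) :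
    ∃ N : ℕ, ∀ N' ≥ N, ∀ σ ∈ (((Sd (V → ℝ) k) ^ N') c).support, SmallS k σ := by
  have hcard : (0 : ℝ) < Fintype.card V := by exact_mod_cast Fintype.card_pos
  set δ : ℝ := (Fintype.card V : ℝ)⁻¹ with hδ
  have hδ0 : 0 < δ := inv_pos.2 hcard
  obtain ⟨N, hN⟩ := exists_small (fun x : V → ℝ => Metric.ball x (δ / 2)) (fun _ => Metric.isOpen_ball) k c
    (fun σ _ t => ⟨σ t, Metric.mem_ball_self (by positivity)⟩)
  refine ⟨N, fun N' hN' σ hσ i t => ?_⟩
  obtain ⟨x, hx⟩ := hN N' hN' σ hσ
  have hin : SIn (rz F) (((Sd (V → ℝ) k) ^ N') c) := hc.Sd_pow N'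
  have h1 : δ ≤ σ (vtx i) (labT k σ i) := lab_large (hin σ hσ (vtx i)).2.1
  have h2 : dist (σ t) (σ (vtx i)) < δ := by
    have a := hx t
    have b := hx (vtx i)
    rw [Metric.mem_ball] at a b
    have := dist_triangle_right (σ t) (σ (vtx i)) x
    linarith
  have h3 := lt_of_le_of_lt (dist_le_pi_dist (σ t) (σ (vtx i)) (labT k σ i)) h2
  rw [Real.dist_eq, abs_lt] at h3
  linarith [h3.1]

/-- every cycle of the complex is homologous, inside the complex, to a simplicial sorted cycle -/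
theorem exists_simplicial (F : Finset (Finset V)) (k : ℕ) (z : SC (V → ℝ) (k + 1)) (hz : bd k z = 0)
    (hzS : SIn (rz F) z) :
    ∃ (w : TC V (k + 1)) (b : SC (V → ℝ) (k + 2)), td k w = 0 ∧ TK F w ∧ srt (k + 1) w = w ∧
      SIn (rz F) b ∧ z - rl V (k + 1) w = bd (k + 1) b ∧ (IntC z → IntC w ∧ IntC b) := by
  obtain ⟨N, hN⟩ := exists_smallS F (k + 1) z hzS
  obtain ⟨c, hc1, hc2, hc3⟩ := exists_Sd_pow_int k N (rz F) z hz hzS
  set y := ((Sd (V → ℝ) (k + 1)) ^ N) z with hy
  have hyS : SIn (rz F) y := hzS.Sd_pow N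
  have hys : ∀ σ ∈ y.support, SmallS (k + 1) σ := hN N le_rfl
  have hyz : bd k y = 0 := by rw [hy, bd_Sd_pow, hz, map_zero]
  set w0 := apx V (k + 1) y with hw0
  have hw0K : TK F w0 := apx_TK F (k + 1) y hyS hys
  have hw0z : td k w0 = 0 := by rw [hw0, td_apx, hyz, map_zero]
  have hidem : ∀ c : TC V (k + 1), srt (k + 1) (srt (k + 1) c) = srt (k + 1) c := by
    intro c
    have : (srt (V := V) (k + 1)).comp (srt (k + 1)) = srt (k + 1) := by
      refine Finsupp.lhom_ext' (fun p => LinearMap.ext_ring ?_)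
      simp only [LinearMap.comp_apply, Finsupp.lsingle_apply]
      rw [srt_single]
      by_cases h : Function.Injective p
      · rw [srt1_of_inj h, map_smul, srt_single]
        have hm : StrictMono (p ∘ Tuple.sort p) :=
          (Tuple.monotone_sort p).strictMono_of_injective (h.comp (Tuple.sort p).injective)
        rw [srt1_of_strictMono hm]
      · rw [srt1_of_not_inj h, map_zero]
    exact LinearMap.congr_fun this c
  have hsK : TK F (srt (k + 1) w0) := hw0K.lin _ (fun p => srt_TIn _ p)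
  have hhK : TK F (hS V (k + 1) w0) := hw0K.lin _ (fun p => hS_TIn _ p)
  refine ⟨srt (k + 1) w0, c - prOp (slH V) (k + 1) y + rl V (k + 2) (hS V (k + 1) w0), ?_, hsK, hidem _,
    (hc1.sub (slH_SIn F (k + 1) y hyS hys)).add hhK.rl_SIn, ?_, ?_⟩
  · rw [td_srt, hw0z, map_zero]
  · rw [map_add, map_sub, hc2, bd_slH, hyz, map_zero, sub_zero, bd_rl, td_hS, hw0z, map_zero, sub_zero, ← hw0,
      map_sub]
    abel
  · intro hi
    have hyi : IntC y := hi.Sd_pow N
    exact ⟨hyi.apx.srt, ((hc3 hi).sub (hyi.prOp _)).add hyi.apx.hS.rl⟩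

end SV
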