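import Pool.Agent.Helper79.CX.Cert
import Pool.Agent.Helper69.CX.Comb
import Pool.Agent.Helper43.CX.Final

/-!
Project CX, module T1: the bridge between helper69's `Comb`, helper43's `pos_of_bound` and the
fundamental class.
-/

namespace Pool.CX

open Finset _root_.SV Pool.Agent.Helper43.CX

set_option linter.unusedSectionVars false

variable {V : Type*} [Fintype V] [LinearOrder V] [Nonempty V]

theorem combT_of_comb {T : List (Helper69.CX.ST V)} (h : Helper69.CX.Comb T)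
    (hinj : ∀ s ∈ T, ∀ t ∈ T, s.2 = t.2 → s = t) : CombT (V := V) T := by
  refine ⟨h.incr, hinj, h.pairs, ?_, ?_⟩
  · intro t ht t' ht'
    have h1 := h.conn t ht t' ht'
    clear ht'
    induction h1 with
    | refl => exact Relation.ReflTransGen.refl
    | @tail b c _ hab ih =>
      obtain ⟨hb, hc, s, s', k, h1, h2⟩ := hab
      exact ih.tail ⟨hb, hc, k, s, s', h1, h2⟩
  · obtain ⟨t, ht, _⟩ := h.all (Classical.arbitrary V)
    exact List.ne_nil_of_mem ht

/-- **The three facts about the fundamental cycle that `pos_of_bound` needs.** -/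
theorem fund_final {T : List (Tet V)} (h : CombT T) (S : Set (V → ℝ))
    (hS : ∀ x, x ∈ S ↔ x ∈ stdSimplex ℝ V ∧ ∃ s ∈ facT T, ∀ v, x v ≠ 0 → v ∈ s)
    (τ : Tet V → Pool.SV.Sing ↥S 3)
    (hτ : ∀ t ∈ T, ∀ x v, (τ t x).1 v = ∑ i, if tupT t i = v then x i else 0)
    (zK : ChainC ℤ ↥S 3) (hzK : zK = (T.map (fun t => Finsupp.single (τ t) (sg t.1))).sum) :
    bdC ℤ ↥S 2 zK = 0 ∧
    (∀ w : ChainC ℤ ↥S 3, bdC ℤ ↥S 2 w = 0 →
      ∃ (m : ℤ) (b : ChainC ℤ ↥S 4), w = m • zK + bdC ℤ ↥S 3 b) ∧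
    (∀ (m : ℤ) (b : ChainC ℤ ↥S 4), m • zK = bdC ℤ ↥S 3 b → m = 0) := by
  subst hzK
  obtain ⟨h1, h2, h3⟩ := h.fund S hS τ hτ
  refine ⟨h1, fun w hw => ?_, h3⟩
  obtain ⟨m, b, hb⟩ := h2 w hw
  refine ⟨m, b, ?_⟩
  have hb' : w - m • (T.map (fun t => Finsupp.single (τ t) (sg t.1))).sum = bdC ℤ ↥S 3 b := hb
  rw [← hb']
  abel

/-- the real chain of the fundamental cycle -/
theorem toReal_zK {S : Set (V → ℝ)} (T : List (Tet V)) (τ : Tet V → Pool.SV.Sing ↥S 3) :
    toReal ((T.map (fun t => Finsupp.single (τ t) (sg t.1))).sum : ChainC ℤ ↥S 3) =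
      (T.map (fun t => ((sg t.1 : ℤ) : ℝ) • Finsupp.single (τ t) (1 : ℝ))).sum := by
  induction T with
  | nil => simp [toReal]
  | cons t T ih =>
    rw [List.map_cons, List.sum_cons, toReal_add, ih, toReal_single, List.map_cons, List.sum_cons,
      Finsupp.smul_single, smul_eq_mul, mul_one]

end Pool.CX
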