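import Pool.Agent.Helper79.CX.Top
import Pool.Agent.Helper84.SV.Defs

/-!
Project CX, module T1: the fundamental class of a strongly connected closed oriented
pseudomanifold, for the type `↥S`, `S` the realisation of a finite simplicial complex in `V → ℝ`,
in terms of the singular chains of `Pool.SV`.
-/

namespace Pool.CX

open Finset _root_.SV

set_option linter.unusedSectionVars false

/-! ### chains with coefficients in a ring -/

/-- singular chains with coefficients in `R` -/
abbrev ChainR (R : Type*) [CommRing R] (M : Type*) [TopologicalSpace M] (q : ℕ) := Pool.SV.Sing M q →₀ R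

/-- the boundary map of singular chains with coefficients in `R` -/
noncomputable def bdR (R : Type*) [CommRing R] (M : Type*) [TopologicalSpace M] (q : ℕ) :
    ChainR R M (q + 1) →ₗ[R] ChainR R M q :=
  Finsupp.linearCombination R (fun σ : Pool.SV.Sing M (q + 1) =>
    ∑ i : Fin (q + 2), ((-1 : R) ^ (i : ℕ)) • Finsupp.single (σ.comp (Pool.SV.face q i)) (1 : R))

theorem bdR_real (M : Type*) [TopologicalSpace M] (q : ℕ) : bdR ℝ M q = Pool.SV.bd M q := rfl

theorem bd_eq (M : Type*) [TopologicalSpace M] (q : ℕ) (c : Pool.SV.Chain M (q + 1)) :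
    Pool.SV.bd M q c = _root_.SV.bd q c := rfl

/-- integral chains as real chains -/
noncomputable def toR {A : Type*} (c : A →₀ ℤ) : A →₀ ℝ := Finsupp.mapRange (fun n : ℤ => (n : ℝ)) (by simp) c

theorem toR_apply {A : Type*} (c : A →₀ ℤ) (a : A) : toR c a = c a := by simp [toR]

theorem toR_injective {A : Type*} : Function.Injective (toR (A := A)) := by
  intro c c' h
  ext a
  have := congrArg (fun d => d a) h
  simp only [toR_apply] at this
  exact_mod_cast this

theorem toR_add {A : Type*} (c c' : A →₀ ℤ) : toR (c + c') = toR c + toR c' := by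
  ext a; simp [toR_apply]

theorem toR_zero {A : Type*} : toR (0 : A →₀ ℤ) = 0 := by
  ext a; simp [toR_apply]

theorem toR_sub {A : Type*} (c c' : A →₀ ℤ) : toR (c - c') = toR c - toR c' := by
  ext a; simp [toR_apply]

theorem toR_smul {A : Type*} (m : ℤ) (c : A →₀ ℤ) : toR (m • c) = (m : ℝ) • toR c := by
  ext a; simp [toR_apply]

theorem toR_single {A : Type*} (a : A) (m : ℤ) : toR (Finsupp.single a m) = Finsupp.single a (m : ℝ) := by
  simp [toR]

theorem toR_sum {A ι : Type*} (s : Finset ι) (f : ι → (A →₀ ℤ)) : toR (∑ i ∈ s, f i) = ∑ i ∈ s, toR (f i) := by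
  classical
  induction s using Finset.induction_on with
  | empty => simp [toR_zero]
  | insert a s ha ih => rw [Finset.sum_insert ha, Finset.sum_insert ha, toR_add, ih]

theorem intC_toR {A : Type*} (c : A →₀ ℤ) : IntC (toR c) := fun a => ⟨c a, toR_apply c a⟩

theorem exists_toR {A : Type*} {c : A →₀ ℝ} (h : IntC c) : ∃ c' : A →₀ ℤ, toR c' = c := by
  classical
  choose n hn using h
  refine ⟨Finsupp.onFinset c.support n (fun a ha => ?_), ?_⟩
  · rw [Finsupp.mem_support_iff, hn a]
    exact_mod_cast ha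
  · ext a
    rw [toR_apply, Finsupp.onFinset_apply, hn a]

theorem bd_toR (M : Type*) [TopologicalSpace M] (q : ℕ) (c : ChainR ℤ M (q + 1)) :
    Pool.SV.bd M q (toR c) = toR (bdR ℤ M q c) := by
  classical
  induction c using Finsupp.induction_linear with
  | zero => simp [toR_zero]
  | add c c' h h' => rw [toR_add, map_add, h, h', map_add, toR_add]
  | single σ m =>
    rw [toR_single, bdR, Finsupp.linearCombination_single, toR_smul, toR_sum, Pool.SV.bd,
      Finsupp.linearCombination_single]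
    congr 1
    refine Finset.sum_congr rfl (fun i _ => ?_)
    have : ((-1 : ℤ) ^ (i : ℕ)) • (Finsupp.single (σ.comp (Pool.SV.face q i)) (1 : ℤ)) =
      (Finsupp.single (σ.comp (Pool.SV.face q i)) ((-1 : ℤ) ^ (i : ℕ))) := by simp
    rw [this, toR_single]
    simp

/-! ### chains in a subset -/

section sub

variable {X : Type*} [TopologicalSpace X]

/-- the inclusion of a subset -/
def inclS (S : Set X) : C(↥S, X) := ⟨Subtype.val, continuous_subtype_val⟩

theorem inclS_comp_injective (S : Set X) (k : ℕ) :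
    Function.Injective (fun σ : Sx ↥S k => (inclS S).comp σ) := by
  intro σ τ h
  ext t
  exact congrArg (fun f : Sx X k => f t) h

theorem smap_incl_injective (S : Set X) (k : ℕ) : Function.Injective (smap (inclS S) k) := by
  intro c c' h
  exact Finsupp.mapDomain_injective (inclS_comp_injective S k) h

theorem smap_incl_SIn (S : Set X) {k : ℕ} (c : SC ↥S k) : SIn S (smap (inclS S) k c) :=
  SIn.smap (S := Set.univ) (fun x _ => x.2) (SIn.univ c)

theorem exists_smap_incl {S : Set X} {k : ℕ} {c : SC X k} (h : SIn S c) :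
    ∃ c' : SC ↥S k, smap (inclS S) k c' = c ∧ (IntC c → IntC c') := by
  refine ⟨Finsupp.comapDomain (fun σ : Sx ↥S k => (inclS S).comp σ) c
    (inclS_comp_injective S k).injOn, ?_, fun hi σ => ?_⟩
  · refine Finsupp.mapDomain_comapDomain _ (inclS_comp_injective S k) c (fun σ hσ => ?_)
    refine ⟨⟨fun t => ⟨σ t, h σ hσ t⟩, by fun_prop⟩, ?_⟩
    ext t
    rfl
  · rw [Finsupp.comapDomain_apply]
    exact hi _

end sub

/-! ### the fundamental class -/

variable {V : Type*} [Fintype V] [LinearOrder V] [Nonempty V]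

theorem rz_eq (F : Finset (Finset V)) :
    {x : V → ℝ | x ∈ stdSimplex ℝ V ∧ ∃ s ∈ F, ∀ v, x v ≠ 0 → v ∈ s} = rz F := by
  ext x
  constructor
  · rintro ⟨⟨h1, h2⟩, s, hs, h3⟩
    exact ⟨h1, h2, s, hs, fun v hv => by by_contra h; exact hv (h3 v h)⟩
  · rintro ⟨h1, h2, s, hs, h3⟩
    exact ⟨⟨h1, h2⟩, s, hs, fun v hv => by by_contra h; exact hv (h3 v h)⟩

/-- the fundamental cycle of the complex, as a chain of `V → ℝ` -/
noncomputable def zAmb (F : Finset (Finset V)) (k : ℕ) (ε : Finset V → ℤ) : Pool.SV.Chain (V → ℝ) (k + 1) :=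
  ∑ s ∈ F, (ε s : ℝ) • Finsupp.single (Cvx.comb (fun i => dl (ordT (k + 1) s i))) (1 : ℝ)

theorem zAmb_eq (F : Finset (Finset V)) (k : ℕ) (ε : Finset V → ℤ) :
    zAmb F k ε = rl V (k + 1) (fch F (k + 1) (fun s => (ε s : ℝ))) := by
  rw [zAmb, fch, map_sum]
  refine Finset.sum_congr rfl (fun s _ => ?_)
  rw [map_smul, rl_single]

/-- **The fundamental class, real chains.** If the chain `zK` of `↥S` has the image `zAmb` in
`V → ℝ`, then it is a cycle, not a boundary, every cycle is homologous to a multiple of it, and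
every integral cycle is integrally homologous to an integral multiple of it. -/
theorem fund_real {F : Finset (Finset V)} {k : ℕ} {ε : Finset V → ℤ} (h : PM F k ε)
    (S : Set (V → ℝ)) (hS : S = rz F) (zK : Pool.SV.Chain ↥S (k + 1))
    (hzK : smap (inclS S) (k + 1) zK = zAmb F k ε) :
    Pool.SV.bd ↥S k zK = 0 ∧
    (∀ z : Pool.SV.Chain ↥S (k + 1), Pool.SV.bd ↥S k z = 0 →
      ∃ (m : ℝ) (b : Pool.SV.Chain ↥S (k + 2)), z - m • zK = Pool.SV.bd ↥S (k + 1) b ∧
        (IntC z → (∃ n : ℤ, m = n) ∧ IntC b)) ∧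
    (∀ (m : ℝ) (b : Pool.SV.Chain ↥S (k + 2)), m • zK = Pool.SV.bd ↥S (k + 1) b → m = 0) := by
  subst hS
  rw [zAmb_eq] at hzK
  refine ⟨?_, ?_, ?_⟩
  · apply smap_incl_injective (rz F) k
    rw [bd_eq, ← bd_smap, hzK, bd_rl, h.cyc, map_zero, map_zero]
  · intro z hz
    have h1 : _root_.SV.bd k (smap (inclS (rz F)) (k + 1) z) = 0 := by
      rw [bd_smap, ← bd_eq, hz, map_zero]
    obtain ⟨m, b, hb1, hb2, hb3⟩ := top_mult h _ h1 (smap_incl_SIn _ z)
    obtain ⟨b', hb', hbi⟩ := exists_smap_incl hb1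
    refine ⟨m, b', ?_, fun hi => ?_⟩
    · apply smap_incl_injective (rz F) (k + 1)
      rw [map_sub, map_smul, hzK, hb2, bd_eq, ← bd_smap, hb']
    · obtain ⟨h2, h3⟩ := hb3 hi.smap
      exact ⟨h2, hbi h3⟩
  · intro m b hm
    refine top_ne h m (smap (inclS (rz F)) (k + 2) b) (smap_incl_SIn _ b) ?_
    rw [← hzK, ← map_smul, hm, bd_eq, bd_smap]

/-- **The fundamental class.** `H_(k+1)(↥S; ℤ)` is infinite cyclic, generated by the class of the
fundamental cycle. -/
theorem fund_int {F : Finset (Finset V)} {k : ℕ} {ε : Finset V → ℤ} (h : PM F k ε)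
    (S : Set (V → ℝ)) (hS : S = rz F) (zK : ChainR ℤ ↥S (k + 1))
    (hzK : smap (inclS S) (k + 1) (toR zK) = zAmb F k ε) :
    bdR ℤ ↥S k zK = 0 ∧
    (∀ z : ChainR ℤ ↥S (k + 1), bdR ℤ ↥S k z = 0 →
      ∃ (m : ℤ) (b : ChainR ℤ ↥S (k + 2)), z - m • zK = bdR ℤ ↥S (k + 1) b) ∧
    (∀ (m : ℤ) (b : ChainR ℤ ↥S (k + 2)), m • zK = bdR ℤ ↥S (k + 1) b → m = 0) := by
  obtain ⟨h1, h2, h3⟩ := fund_real h S hS (toR zK) hzK
  refine ⟨?_, ?_, ?_⟩
  · apply toR_injective
    rw [← bd_toR, h1, toR_zero]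
  · intro z hz
    obtain ⟨m, b, hb, hi⟩ := h2 (toR z) (by rw [bd_toR, hz, toR_zero])
    obtain ⟨⟨n, rfl⟩, hbi⟩ := hi (intC_toR z)
    obtain ⟨b', rfl⟩ := exists_toR hbi
    refine ⟨n, b', ?_⟩
    apply toR_injective
    rw [toR_sub, toR_smul, hb, bd_toR]
  · intro m b hm
    have := h3 m (toR b) (by rw [← toR_smul, hm, bd_toR])
    exact_mod_cast this

end Pool.CX
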