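import Pool.Agent.Helper43.SV.Sd

/-! Project CX, fundamental class: chains with integer coefficients. -/

namespace SV

open Finset Cvx

/-- a real chain with integer coefficients -/
def IntC {A : Type*} (c : A →₀ ℝ) : Prop := ∀ a, ∃ m : ℤ, c a = m

section

variable {A B : Type*}

theorem IntC.zero : IntC (0 : A →₀ ℝ) := fun _ => ⟨0, by simp⟩

theorem IntC.add {c c' : A →₀ ℝ} (h : IntC c) (h' : IntC c') : IntC (c + c') := fun a => by
  obtain ⟨m, hm⟩ := h a
  obtain ⟨m', hm'⟩ := h' a
  exact ⟨m + m', by rw [Finsupp.add_apply, hm, hm']; push_cast; ring⟩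

theorem IntC.smul {c : A →₀ ℝ} {r : ℝ} (hr : ∃ m : ℤ, r = m) (h : IntC c) : IntC (r • c) := fun a => by
  obtain ⟨m, hm⟩ := h a
  obtain ⟨l, hl⟩ := hr
  exact ⟨l * m, by rw [Finsupp.smul_apply, hm, hl, smul_eq_mul]; push_cast; ring⟩

theorem IntC.neg {c : A →₀ ℝ} (h : IntC c) : IntC (-c) := by
  have := h.smul (r := -1) ⟨-1, by simp⟩
  simpa using this

theorem IntC.sub {c c' : A →₀ ℝ} (h : IntC c) (h' : IntC c') : IntC (c - c') := by
  rw [sub_eq_add_neg]; exact h.add h'.neg

theorem IntC.sum {ι : Type*} (s : Finset ι) (f : ι → (A →₀ ℝ)) (h : ∀ i ∈ s, IntC (f i)) :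
    IntC (∑ i ∈ s, f i) := by
  classical
  induction s using Finset.induction_on with
  | empty => simpa using IntC.zero
  | insert a s ha ih =>
    rw [Finset.sum_insert ha]
    exact (h a (by simp)).add (ih (fun i hi => h i (by simp [hi])))

theorem IntC.single (a : A) {r : ℝ} (hr : ∃ m : ℤ, r = m) : IntC (Finsupp.single a r) := fun b => by
  classical
  rw [Finsupp.single_apply]
  split_ifs
  · exact hr
  · exact ⟨0, by simp⟩

theorem IntC.single_one (a : A) : IntC (Finsupp.single a (1 : ℝ)) := IntC.single a ⟨1, by simp⟩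

theorem IntC.sign_smul {c : A →₀ ℝ} (i : ℕ) (h : IntC c) : IntC ((-1 : ℝ) ^ i • c) :=
  h.smul ⟨(-1) ^ i, by push_cast; rfl⟩

/-- linear maps which send basis elements to integral chains preserve integral chains -/
theorem IntC.lin (f : (A →₀ ℝ) →ₗ[ℝ] (B →₀ ℝ)) (hf : ∀ a, IntC (f (Finsupp.single a 1))) {c : A →₀ ℝ}
    (h : IntC c) : IntC (f c) := by
  rw [fsum c, map_sum]
  refine IntC.sum _ _ (fun a _ => ?_)
  rw [map_smul]
  exact (hf a).smul (h a)

theorem IntC.ext (f : A → (B →₀ ℝ)) (hf : ∀ a, IntC (f a)) {c : A →₀ ℝ} (h : IntC c) : IntC (SV.ext f c) :=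
  IntC.lin _ (fun a => by rw [ext_single, one_smul]; exact hf a) h

end

section tup

variable {P Q : Type*}

theorem IntC.td {k : ℕ} {c : TC P (k + 1)} (h : IntC c) : IntC (SV.td k c) := by
  refine IntC.lin _ (fun p => ?_) h
  rw [td_single, one_smul]
  exact IntC.sum _ _ (fun i _ => (IntC.single_one _).sign_smul _)

theorem IntC.tmap {f : P → Q} {k : ℕ} {c : TC P k} (h : IntC c) : IntC (SV.tmap f k c) := by
  refine IntC.lin _ (fun p => ?_) h
  rw [tmap_single]
  exact IntC.single_one _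

theorem IntC.tcone {b : P} {k : ℕ} {c : TC P k} (h : IntC c) : IntC (SV.tcone b k c) := by
  refine IntC.lin _ (fun p => ?_) h
  rw [tcone_single]
  exact IntC.single_one _

theorem IntC.hK (φ ψ : ∀ k, TC P k →ₗ[ℝ] TC Q k) (b : ∀ k, (Fin (k + 1) → P) → Q)
    (hφ : ∀ k p, IntC (φ k (Finsupp.single p 1))) (hψ : ∀ k p, IntC (ψ k (Finsupp.single p 1))) (k : ℕ) :
    ∀ {c : TC P k}, IntC c → IntC (SV.hK φ ψ b k c) := by
  induction k with
  | zero =>
    intro c h
    refine IntC.lin _ (fun p => ?_) h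
    rw [hK_zero_single]
    exact ((hφ 0 p).sub (hψ 0 p)).tcone
  | succ k ih =>
    intro c h
    refine IntC.lin _ (fun p => ?_) h
    rw [hK_succ_single]
    exact (((hφ _ p).sub (hψ _ p)).sub (ih (IntC.single_one p).td)).tcone

end tup

section cvx

variable {P : Type*} [TopologicalSpace P] [Cvx P]

theorem IntC.sdT (k : ℕ) : ∀ {c : TC P k}, IntC c → IntC (SV.sdT P k c) := by
  induction k with
  | zero => intro c h; exact h
  | succ k ih =>
    intro c h
    refine IntC.lin _ (fun p => ?_) h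
    rw [sdT_succ]
    exact (ih (IntC.single_one p).td).tcone

theorem IntC.thT (k : ℕ) {c : TC P k} (h : IntC c) : IntC (SV.thT P k c) :=
  IntC.hK _ _ _ (fun _ p => IntC.single_one p) (fun _ p => (IntC.single_one p).sdT _) k h

theorem IntC.real {k : ℕ} {c : TC P k} (h : IntC c) : IntC (SV.real k c) := by
  refine IntC.lin _ (fun p => ?_) h
  rw [real_single]
  exact IntC.single_one _

end cvx

theorem IntC.iot (m : ℕ) : IntC (SV.iot m) := IntC.single_one _

section sing

variable {X Y : Type*} [TopologicalSpace X] [TopologicalSpace Y]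

theorem IntC.bd {k : ℕ} {c : SC X (k + 1)} (h : IntC c) : IntC (SV.bd k c) := by
  refine IntC.lin _ (fun p => ?_) h
  rw [bd_single, one_smul]
  exact IntC.sum _ _ (fun i _ => (IntC.single_one _).sign_smul _)

theorem IntC.smap {f : C(X, Y)} {k : ℕ} {c : SC X k} (h : IntC c) : IntC (SV.smap f k c) := by
  refine IntC.lin _ (fun p => ?_) h
  rw [smap_single]
  exact IntC.single_one _

theorem IntC.Sd {k : ℕ} {c : SC X k} (h : IntC c) : IntC (SV.Sd X k c) := by
  refine IntC.lin _ (fun p => ?_) h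
  rw [Sd_single]
  exact ((IntC.iot _).sdT _).real.smap

theorem IntC.Th {k : ℕ} {c : SC X k} (h : IntC c) : IntC (SV.Th X k c) := by
  refine IntC.lin _ (fun p => ?_) h
  rw [Th_single]
  exact ((IntC.iot _).thT _).real.smap

theorem IntC.Sd_pow {k : ℕ} {c : SC X k} (h : IntC c) (N : ℕ) : IntC (((SV.Sd X k) ^ N) c) := by
  induction N with
  | zero => simpa using h
  | succ N ih =>
    rw [pow_succ', Module.End.mul_apply]
    exact ih.Sd

theorem IntC.prOp (H : ∀ k, Sx X k → C(ℝ × Dl k, Y)) {k : ℕ} {c : SC X k} (h : IntC c) :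
    IntC (SV.prOp H k c) := by
  refine IntC.lin _ (fun p => ?_) h
  rw [SV.prOp, ext_single, one_smul]
  exact (IntC.hK _ _ _ (fun _ p => (IntC.single_one p).tmap) (fun _ p => (IntC.single_one p).tmap) _
    (IntC.iot _)).real.smap

/-- a cycle is homologous to its subdivisions, within its support, integrally -/
theorem exists_Sd_pow_int (k N : ℕ) (S : Set X) (z : SC X (k + 1)) (hz : bd k z = 0) (hS : SIn S z) :
    ∃ c : SC X (k + 2), SIn S c ∧ bd (k + 1) c = z - ((Sd X (k + 1)) ^ N) z ∧ (IntC z → IntC c) := by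
  induction N with
  | zero => exact ⟨0, SIn.zero, by simp, fun _ => IntC.zero⟩
  | succ N ih =>
    obtain ⟨c, hc, hc', hi⟩ := ih
    refine ⟨c + Th X (k + 1) (((Sd X (k + 1)) ^ N) z), hc.add (hS.Sd_pow N).Th, ?_,
      fun h => (hi h).add (h.Sd_pow N).Th⟩
    rw [map_add, hc', bd_Th, bd_Sd_pow, hz, map_zero, map_zero, sub_zero, pow_succ', Module.End.mul_apply]
    abel

end sing

end SV
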