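import Pool.Agent.Helper79.CX.Int

/-! Project CX, fundamental class: from ordered tuples to sorted tuples. -/

namespace SV

open Finset

variable {V : Type*} [LinearOrder V]

open Classical in
/-- the sorted tuple with the sign of the sorting permutation; zero if there is a repetition -/
noncomputable def srt1 (k : ℕ) (p : Fin (k + 1) → V) : TC V k :=
  if Function.Injective p then
    (((Equiv.Perm.sign (Tuple.sort p) : ℤˣ) : ℤ) : ℝ) • Finsupp.single (p ∘ Tuple.sort p) (1 : ℝ)
  else 0

/-- sorting, as a linear map -/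
noncomputable def srt (k : ℕ) : TC V k →ₗ[ℝ] TC V k := ext (srt1 k)

theorem srt_single (k : ℕ) (p : Fin (k + 1) → V) : srt k (Finsupp.single p 1) = srt1 k p := by
  rw [srt, ext_single, one_smul]

theorem srt1_of_inj {k : ℕ} {p : Fin (k + 1) → V} (h : Function.Injective p) :
    srt1 k p = (((Equiv.Perm.sign (Tuple.sort p) : ℤˣ) : ℤ) : ℝ) • Finsupp.single (p ∘ Tuple.sort p) (1 : ℝ) := by
  rw [srt1, if_pos h]

theorem srt1_of_not_inj {k : ℕ} {p : Fin (k + 1) → V} (h : ¬ Function.Injective p) : srt1 k p = 0 := by
  rw [srt1, if_neg h]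

theorem sort_eq_one {k : ℕ} {p : Fin (k + 1) → V} (h : StrictMono p) : Tuple.sort p = 1 := by
  have h1 : p ∘ (1 : Equiv.Perm (Fin (k + 1))) = p ∘ Tuple.sort p :=
    Tuple.comp_sort_eq_comp_iff_monotone.2 (by simpa using h.monotone)
  ext x
  have := congrFun h1 x
  simp only [Function.comp_apply, Equiv.Perm.coe_one, id_eq] at this
  rw [← h.injective this]
  rfl

theorem srt1_of_strictMono {k : ℕ} {p : Fin (k + 1) → V} (h : StrictMono p) :
    srt1 k p = Finsupp.single p 1 := by
  rw [srt1_of_inj h.injective, sort_eq_one h]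
  simp

theorem srt1_perm {k : ℕ} (p : Fin (k + 1) → V) (π : Equiv.Perm (Fin (k + 1))) :
    srt1 k (p ∘ π) = (((Equiv.Perm.sign π : ℤˣ) : ℤ) : ℝ) • srt1 k p := by
  by_cases h : Function.Injective p
  · have h2 : Function.Injective (p ∘ π) := h.comp π.injective
    have e : Tuple.sort (p ∘ π) = π⁻¹ * Tuple.sort p := by
      have h3 : (p ∘ π) ∘ (π⁻¹ * Tuple.sort p : Equiv.Perm _) = (p ∘ π) ∘ Tuple.sort (p ∘ π) := by
        refine Tuple.comp_sort_eq_comp_iff_monotone.2 ?_
        have : (p ∘ π) ∘ (π⁻¹ * Tuple.sort p : Equiv.Perm _) = p ∘ Tuple.sort p := by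
          funext x; simp
        rw [this]
        exact Tuple.monotone_sort p
      ext x
      have := congrFun h3 x
      rw [h2 this.symm]
    rw [srt1_of_inj h, srt1_of_inj h2, e, smul_smul]
    congr 1
    · rw [map_mul]
      simp
    · congr 1
      funext x; simp
  · have h2 : ¬ Function.Injective (p ∘ π) := fun h' => h (by
      have := h'.comp (π⁻¹).injective
      simpa [Function.comp_assoc] using this)
    rw [srt1_of_not_inj h, srt1_of_not_inj h2, smul_zero]

theorem srt_td_single (k : ℕ) (p : Fin (k + 2) → V) :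
    srt k (td k (Finsupp.single p 1)) = ∑ j : Fin (k + 2), (-1 : ℝ) ^ (j : ℕ) • srt1 k (tface V k j p) := by
  rw [td_single, one_smul, map_sum]
  refine Finset.sum_congr rfl (fun j _ => ?_)
  rw [map_smul, srt_single]

theorem srt_td_adj (k : ℕ) (i : Fin (k + 1)) (p : Fin (k + 2) → V) :
    srt k (td k (Finsupp.single (p ∘ Equiv.swap i.castSucc i.succ) 1)) = - srt k (td k (Finsupp.single p 1)) := by
  rw [srt_td_single, srt_td_single, ← Equiv.sum_comp (Equiv.swap i.castSucc i.succ), ← Finset.sum_neg_distrib]
  refine Finset.sum_congr rfl (fun j _ => ?_)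
  by_cases h1 : j = i.castSucc
  · subst h1
    rw [Equiv.swap_apply_left]
    have e : tface V k i.succ (p ∘ Equiv.swap i.castSucc i.succ) = tface V k i.castSucc p := by
      funext x
      simp only [tface, Function.comp_apply]
      congr 1
      rcases lt_trichotomy x i with h | h | h
      · rw [Fin.succAbove_of_castSucc_lt _ _ (by rw [Fin.lt_def] at h ⊢; simp; omega),
          Fin.succAbove_of_castSucc_lt _ _ (by rw [Fin.lt_def] at h ⊢; simpa using h)]
        refine Equiv.swap_apply_of_ne_of_ne ?_ ?_
        · intro h3; rw [Fin.ext_iff] at h3; rw [Fin.lt_def] at h; simp at h3; omega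
        · intro h3; rw [Fin.ext_iff] at h3; rw [Fin.lt_def] at h; simp at h3; omega
      · subst h
        rw [Fin.succAbove_of_castSucc_lt _ _ (by rw [Fin.lt_def]; simp), Equiv.swap_apply_left,
          Fin.succAbove_of_le_castSucc _ _ le_rfl]
      · rw [Fin.succAbove_of_le_castSucc _ _ (by rw [Fin.lt_def] at h; rw [Fin.le_def]; simp; omega),
          Fin.succAbove_of_le_castSucc _ _ (by rw [Fin.lt_def] at h; rw [Fin.le_def]; simp; omega)]
        refine Equiv.swap_apply_of_ne_of_ne ?_ ?_
        · intro h3; rw [Fin.ext_iff] at h3; rw [Fin.lt_def] at h; simp at h3; omega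
        · intro h3; rw [Fin.ext_iff] at h3; rw [Fin.lt_def] at h; simp at h3; omega
    rw [e]
    simp only [Fin.val_succ, Fin.val_castSucc, pow_succ, mul_neg, mul_one, neg_smul]
  · by_cases h2 : j = i.succ
    · subst h2
      rw [Equiv.swap_apply_right]
      have e : tface V k i.castSucc (p ∘ Equiv.swap i.castSucc i.succ) = tface V k i.succ p := by
        funext x
        simp only [tface, Function.comp_apply]
        congr 1
        rcases lt_trichotomy x i with h | h | h
        · rw [Fin.succAbove_of_castSucc_lt _ _ (by rw [Fin.lt_def] at h ⊢; simpa using h),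
            Fin.succAbove_of_castSucc_lt _ _ (by rw [Fin.lt_def] at h ⊢; simp; omega)]
          refine Equiv.swap_apply_of_ne_of_ne ?_ ?_
          · intro h3; rw [Fin.ext_iff] at h3; rw [Fin.lt_def] at h; simp at h3; omega
          · intro h3; rw [Fin.ext_iff] at h3; rw [Fin.lt_def] at h; simp at h3; omega
        · subst h
          rw [Fin.succAbove_of_le_castSucc _ _ le_rfl, Equiv.swap_apply_right,
            Fin.succAbove_of_castSucc_lt _ _ (by rw [Fin.lt_def]; simp)]
        · rw [Fin.succAbove_of_le_castSucc _ _ (by rw [Fin.lt_def] at h; rw [Fin.le_def]; simp; omega),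
            Fin.succAbove_of_le_castSucc _ _ (by rw [Fin.lt_def] at h; rw [Fin.le_def]; simp; omega)]
          refine Equiv.swap_apply_of_ne_of_ne ?_ ?_
          · intro h3; rw [Fin.ext_iff] at h3; rw [Fin.lt_def] at h; simp at h3; omega
          · intro h3; rw [Fin.ext_iff] at h3; rw [Fin.lt_def] at h; simp at h3; omega
      rw [e]
      simp only [Fin.val_succ, Fin.val_castSucc, pow_succ, mul_neg, mul_one, neg_smul, neg_neg]
    · rw [Equiv.swap_apply_of_ne_of_ne h1 h2]
      obtain ⟨a, ha⟩ := Fin.exists_succAbove_eq (Ne.symm h1)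
      obtain ⟨b, hb⟩ := Fin.exists_succAbove_eq (Ne.symm h2)
      have hab : a ≠ b := by
        rintro rfl
        rw [ha] at hb
        have := congrArg Fin.val hb
        simp at this
      have e : tface V k j (p ∘ Equiv.swap i.castSucc i.succ) = tface V k j p ∘ Equiv.swap a b := by
        have hs := (Fin.succAbove_right_injective (p := j)).swap_comp a b
        rw [ha, hb] at hs
        funext x
        have := congrFun hs x
        simp only [Function.comp_apply] at this
        simp only [tface, Function.comp_apply]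
        rw [this]
      rw [e, srt1_perm, Equiv.Perm.sign_swap hab]
      simp

theorem srt_td_perm (k : ℕ) (π : Equiv.Perm (Fin (k + 2))) : ∀ p : Fin (k + 2) → V,
    srt k (td k (Finsupp.single (p ∘ π) 1)) =
      (((Equiv.Perm.sign π : ℤˣ) : ℤ) : ℝ) • srt k (td k (Finsupp.single p 1)) := by
  have hmem : π ∈ Submonoid.closure (Set.range fun i : Fin (k + 1) => Equiv.swap i.castSucc i.succ) := by
    rw [Equiv.Perm.mclosure_swap_castSucc_succ]
    exact Submonoid.mem_top π
  induction hmem using Submonoid.closure_induction with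
  | mem x hx =>
    obtain ⟨i, rfl⟩ := hx
    intro p
    rw [srt_td_adj, Equiv.Perm.sign_swap (by
      intro h
      have := congrArg Fin.val h
      simp at this)]
    simp
  | one => intro p; simp
  | mul x y _ _ hx hy =>
    intro p
    have e : p ∘ (x * y : Equiv.Perm _) = (p ∘ x) ∘ y := by funext z; simp
    rw [e, hy, hx, smul_smul, map_mul]
    congr 1
    push_cast
    ring

theorem strictMono_tface {k : ℕ} {p : Fin (k + 2) → V} (h : StrictMono p) (j : Fin (k + 2)) :
    StrictMono (tface V k j p) := fun _ _ hab => h (Fin.strictMono_succAbove j hab)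

/-- sorting is a chain map -/
theorem td_srt (k : ℕ) (c : TC V (k + 1)) : td k (srt (k + 1) c) = srt k (td k c) := by
  have : (td k).comp (srt (V := V) (k + 1)) = (srt k).comp (td k) := by
    refine Finsupp.lhom_ext' (fun p => LinearMap.ext_ring ?_)
    simp only [LinearMap.comp_apply, Finsupp.lsingle_apply]
    by_cases h : Function.Injective p
    · rw [srt_single, srt1_of_inj h, map_smul]
      have hm : StrictMono (p ∘ Tuple.sort p) :=
        (Tuple.monotone_sort p).strictMono_of_injective (h.comp (Tuple.sort p).injective)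
      have h1 : srt k (td k (Finsupp.single (p ∘ Tuple.sort p) 1)) = td k (Finsupp.single (p ∘ Tuple.sort p) 1) := by
        rw [srt_td_single, td_single, one_smul]
        refine Finset.sum_congr rfl (fun j _ => ?_)
        rw [srt1_of_strictMono (strictMono_tface hm j)]
      rw [← h1, srt_td_perm, smul_smul, ← Int.cast_mul, ← Units.val_mul, Int.units_mul_self]
      simp
    · rw [srt_single, srt1_of_not_inj h, map_zero]
      simp only [Function.Injective, not_forall] at h
      obtain ⟨a, b, hab, hne⟩ := h
      have e : p ∘ Equiv.swap a b = p := by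
        funext x
        simp only [Function.comp_apply]
        rcases eq_or_ne x a with rfl | hxa
        · rw [Equiv.swap_apply_left, hab]
        · rcases eq_or_ne x b with rfl | hxb
          · rw [Equiv.swap_apply_right, hab]
          · rw [Equiv.swap_apply_of_ne_of_ne hxa hxb]
      have h2 := srt_td_perm k (Equiv.swap a b) p
      rw [e, Equiv.Perm.sign_swap hne] at h2
      have h3 : (2 : ℝ) • srt k (td k (Finsupp.single p 1)) = 0 := by
        rw [two_smul]
        nth_rewrite 1 [h2]
        simp
      rcases smul_eq_zero.1 h3 with h4 | h4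
      · norm_num at h4
      · exact h4.symm
  exact LinearMap.congr_fun this c

theorem srt_zero (c : TC V 0) : srt 0 c = c := by
  have : srt (V := V) 0 = LinearMap.id := by
    refine Finsupp.lhom_ext' (fun p => LinearMap.ext_ring ?_)
    simp only [LinearMap.comp_apply, Finsupp.lsingle_apply, LinearMap.id_apply]
    rw [srt_single, srt1_of_strictMono]
    intro a b hab
    rw [Fin.fin_one_eq_zero a, Fin.fin_one_eq_zero b] at hab
    exact absurd hab (lt_irrefl _)
  exact LinearMap.congr_fun this c

theorem srt_TIn (k : ℕ) (p : Fin (k + 1) → V) : TIn (Set.range p) (srt k (Finsupp.single p 1)) := by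
  rw [srt_single, srt1]
  split_ifs
  · refine (TIn.single _ (fun i => ?_)).smul _
    exact ⟨_, rfl⟩
  · exact TIn.zero

theorem IntC.srt {k : ℕ} {c : TC V k} (h : IntC c) : IntC (SV.srt k c) := by
  refine IntC.lin _ (fun p => ?_) h
  rw [srt_single, srt1]
  split_ifs
  · exact (IntC.single_one _).smul ⟨_, rfl⟩
  · exact IntC.zero

/-- the homotopy between the identity and sorting -/
noncomputable def hS (V : Type*) [LinearOrder V] (k : ℕ) : TC V k →ₗ[ℝ] TC V (k + 1) :=
  hK (fun _ => LinearMap.id) (srt (V := V)) (fun _ p => p 0) k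

theorem td_hS (k : ℕ) (c : TC V (k + 1)) : td (k + 1) (hS V (k + 1) c) = c - srt (k + 1) c - hS V k (td k c) :=
  td_hK (fun _ => LinearMap.id) (srt (V := V)) (fun _ p => p 0) (fun _ _ => rfl) (fun k c => td_srt k c)
    (fun c => by rw [srt_zero]; rfl) k c

theorem hS_TIn (k : ℕ) (p : Fin (k + 1) → V) : TIn (Set.range p) (hS V k (Finsupp.single p 1)) := by
  refine hK_TIn _ _ _ (fun _ p => Set.range p) ?_ ?_ ?_ ?_ k p
  · intro k p
    exact TIn.single _ (fun i => ⟨i, rfl⟩)
  · intro k p
    exact srt_TIn k p
  · intro k p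
    exact ⟨0, rfl⟩
  · rintro k p i _ ⟨j, rfl⟩
    exact ⟨_, rfl⟩

theorem IntC.hS {k : ℕ} {c : TC V k} (h : IntC c) : IntC (SV.hS V k c) :=
  IntC.hK _ _ _ (fun _ p => IntC.single_one p) (fun _ p => (IntC.single_one p).srt) _ h

end SV
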