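import Pool.Agent.Helper79.CX.Appr

/-! Project CX, fundamental class: top dimensional simplicial cycles of a pseudomanifold. -/

namespace SV

open Finset Cvx

set_option linter.unusedSectionVars false

variable {V : Type*} [Fintype V] [LinearOrder V] [Nonempty V]

open Classical in
/-- the increasing tuple of the elements of a set with `k + 1` elements -/
noncomputable def ordT (k : ℕ) (s : Finset V) : Fin (k + 1) → V :=
  if h : s.card = k + 1 then s.orderEmbOfFin h else fun _ => Classical.arbitrary V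

theorem ordT_eq {k : ℕ} {s : Finset V} (h : s.card = k + 1) : ordT k s = s.orderEmbOfFin h := by
  rw [ordT, dif_pos h]

theorem ordT_strictMono {k : ℕ} {s : Finset V} (h : s.card = k + 1) : StrictMono (ordT k s) := by
  rw [ordT_eq h]
  exact (s.orderEmbOfFin h).strictMono

theorem ordT_mem {k : ℕ} {s : Finset V} (h : s.card = k + 1) (i : Fin (k + 1)) : ordT k s i ∈ s := by
  rw [ordT_eq h]
  exact s.orderEmbOfFin_mem h i

theorem image_ordT {k : ℕ} {s : Finset V} (h : s.card = k + 1) : Finset.univ.image (ordT k s) = s := by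
  rw [ordT_eq h]
  exact Finset.image_orderEmbOfFin_univ s h

theorem eq_ordT {k : ℕ} {p : Fin (k + 1) → V} (hp : StrictMono p) {s : Finset V} (h : s.card = k + 1)
    (hs : ∀ i, p i ∈ s) : p = ordT k s := by
  rw [ordT_eq h]
  exact Finset.orderEmbOfFin_unique h hs hp

/-- the simplicial chain with coefficients `f` on the facets -/
noncomputable def fch (F : Finset (Finset V)) (k : ℕ) (f : Finset V → ℝ) : TC V k :=
  ∑ s ∈ F, f s • Finsupp.single (ordT k s) (1 : ℝ)

/-- incidence number of a facet and a ridge -/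
noncomputable def inc (k : ℕ) (s G : Finset V) : ℝ := td k (Finsupp.single (ordT (k + 1) s) 1) (ordT k G)

theorem td_fch (F : Finset (Finset V)) (k : ℕ) (f : Finset V → ℝ) (G : Finset V) :
    td k (fch F (k + 1) f) (ordT k G) = ∑ s ∈ F, f s * inc k s G := by
  rw [fch, map_sum, Finsupp.finsetSum_apply]
  refine Finset.sum_congr rfl (fun s _ => ?_)
  rw [map_smul, Finsupp.smul_apply, smul_eq_mul]
  rfl

theorem inc_eq_zero {k : ℕ} {s G : Finset V} (hs : s.card = k + 2) (hG : G.card = k + 1) (h : ¬ G ⊆ s) :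
    inc k s G = 0 := by
  rw [inc, td_single, one_smul, Finsupp.finsetSum_apply]
  refine Finset.sum_eq_zero (fun i _ => ?_)
  rw [Finsupp.smul_apply, Finsupp.single_apply, if_neg, smul_zero]
  intro he
  apply h
  rw [← image_ordT hG, ← he]
  intro v hv
  obtain ⟨j, _, rfl⟩ := Finset.mem_image.1 hv
  exact ordT_mem hs _

theorem tface_ordT_injective {k : ℕ} {s : Finset V} (hs : s.card = k + 2) {i j : Fin (k + 2)}
    (h : tface V k i (ordT (k + 1) s) = tface V k j (ordT (k + 1) s)) : i = j := by
  by_contra hij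
  obtain ⟨a, ha⟩ := Fin.exists_succAbove_eq (Ne.symm hij)
  have h2 : ordT (k + 1) s j ∈ Finset.univ.image (tface V k i (ordT (k + 1) s)) :=
    Finset.mem_image.2 ⟨a, Finset.mem_univ _, by rw [tface, ha]⟩
  rw [h] at h2
  obtain ⟨b, _, hb⟩ := Finset.mem_image.1 h2
  have := (ordT_strictMono hs).injective hb
  exact Fin.succAbove_ne j b this

theorem inc_sq {k : ℕ} {s G : Finset V} (hs : s.card = k + 2) (hG : G.card = k + 1) (h : G ⊆ s) :
    inc k s G * inc k s G = 1 := by
  -- the missing vertex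
  have hd : (s \ G).card = 1 := by rw [Finset.card_sdiff_of_subset h]; omega
  obtain ⟨v, hv⟩ := Finset.card_eq_one.1 hd
  have hvs : v ∈ s := by
    have : v ∈ s \ G := by rw [hv]; simp
    exact (Finset.mem_sdiff.1 this).1
  have hvG : v ∉ G := by
    have : v ∈ s \ G := by rw [hv]; simp
    exact (Finset.mem_sdiff.1 this).2
  obtain ⟨i, _, hi⟩ := Finset.mem_image.1 (by rw [image_ordT hs]; exact hvs :
    v ∈ Finset.univ.image (ordT (k + 1) s))
  have hf : tface V k i (ordT (k + 1) s) = ordT k G := by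
    refine eq_ordT (strictMono_tface (ordT_strictMono hs) i) hG (fun j => ?_)
    by_contra hcon
    have h3 : ordT (k + 1) s (i.succAbove j) ∈ s \ G := Finset.mem_sdiff.2 ⟨ordT_mem hs _, hcon⟩
    rw [hv, Finset.mem_singleton, ← hi] at h3
    exact Fin.succAbove_ne i j ((ordT_strictMono hs).injective h3)
  have h4 : inc k s G = (-1 : ℝ) ^ (i : ℕ) := by
    rw [inc, td_single, one_smul, Finsupp.finsetSum_apply, Finset.sum_eq_single i]
    · rw [Finsupp.smul_apply, hf, Finsupp.single_eq_same, smul_eq_mul, mul_one]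
    · intro j _ hj
      rw [Finsupp.smul_apply, Finsupp.single_apply, if_neg, smul_zero]
      intro h5
      rw [← hf] at h5
      exact hj (tface_ordT_injective hs h5)
    · intro h5; exact absurd (Finset.mem_univ _) h5
  rw [h4, ← mul_pow]
  simp

/-- two facets with a common ridge which lies in no other facet -/
def Adj (F : Finset (Finset V)) (k : ℕ) (s t : Finset V) : Prop :=
  s ∈ F ∧ t ∈ F ∧ s ≠ t ∧ (s ∩ t).card = k + 1 ∧ ∀ r ∈ F, s ∩ t ⊆ r → r = s ∨ r = t

/-- a strongly connected closed oriented pseudomanifold of dimension `k + 1` with signs `ε` -/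
structure PM (F : Finset (Finset V)) (k : ℕ) (ε : Finset V → ℤ) : Prop where
  card : ∀ s ∈ F, s.card = k + 2
  sign : ∀ s ∈ F, ε s = 1 ∨ ε s = -1
  cyc : td k (fch F (k + 1) (fun s => (ε s : ℝ))) = 0
  conn : ∃ s₀ ∈ F, ∀ s ∈ F, Relation.ReflTransGen (Adj F k) s₀ s

variable {F : Finset (Finset V)} {k : ℕ} {ε : Finset V → ℤ}

theorem PM.sq (h : PM F k ε) {s : Finset V} (hs : s ∈ F) : (ε s : ℝ) * ε s = 1 := by
  rcases h.sign s hs with h1 | h1 <;> rw [h1] <;> norm_num

theorem adj_coeff (h : PM F k ε) {f : Finset V → ℝ} (hf : td k (fch F (k + 1) f) = 0) {s t : Finset V}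
    (hst : Adj F k s t) : f s * ε s = f t * ε t := by
  obtain ⟨hs, ht, hne, hc, hr⟩ := hst
  have key : ∀ g : Finset V → ℝ, td k (fch F (k + 1) g) = 0 → g s * inc k s (s ∩ t) + g t * inc k t (s ∩ t) = 0 := by
    intro g hg
    have h1 := td_fch F k g (s ∩ t)
    rw [hg, Finsupp.zero_apply] at h1
    rw [h1, ← Finset.sum_subset (s₁ := {s, t})]
    · rw [Finset.sum_pair hne]
    · intro r hr'
      rcases Finset.mem_insert.1 hr' with rfl | h2
      · exact hs
      · rw [Finset.mem_singleton] at h2; rw [h2]; exact ht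
    · intro r hrF hr'
      rw [inc_eq_zero (h.card r hrF) hc, mul_zero]
      intro hsub
      rcases hr r hrF hsub with rfl | rfl
      · exact hr' (by simp)
      · exact hr' (by simp)
  have h1 := key f hf
  have h2 := key _ h.cyc
  have a := inc_sq (h.card s hs) hc Finset.inter_subset_left
  have b := inc_sq (h.card t ht) hc Finset.inter_subset_right
  have c := h.sq hs
  have d := h.sq ht
  set x := inc k s (s ∩ t)
  set y := inc k t (s ∩ t)
  -- f s x = - f t y, e s x = - e t y
  have e1 : f s * x * (ε s * x) = f t * y * (ε t * y) := by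
    have u : f s * x = - (f t * y) := by linarith
    have v : (ε s : ℝ) * x = - (ε t * y) := by linarith
    rw [u, v]; ring
  calc f s * ε s = f s * x * (ε s * x) := by
        rw [show f s * x * (ε s * x) = f s * ε s * (x * x) by ring, a, mul_one]
    _ = f t * y * (ε t * y) := e1
    _ = f t * ε t := by rw [show f t * y * (ε t * y) = f t * ε t * (y * y) by ring, b, mul_one]

/-- top dimensional cycles are multiples of the fundamental cycle -/
theorem PM.mult (h : PM F k ε) {f : Finset V → ℝ} (hf : td k (fch F (k + 1) f) = 0) :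
    ∃ m : ℝ, fch F (k + 1) f = m • fch F (k + 1) (fun s => (ε s : ℝ)) ∧
      ((∀ s, ∃ n : ℤ, f s = n) → ∃ n : ℤ, m = n) := by
  obtain ⟨s₀, hs₀, hc⟩ := h.conn
  have h1 : ∀ s ∈ F, f s * ε s = f s₀ * ε s₀ := by
    intro s hs
    have := hc s hs
    induction this with
    | refl => rfl
    | tail _ hbc ih => rw [← adj_coeff h hf hbc, ih hbc.1]
  refine ⟨f s₀ * ε s₀, ?_, ?_⟩
  · rw [fch, fch, Finset.smul_sum]
    refine Finset.sum_congr rfl (fun s hs => ?_)
    rw [smul_smul, ← h1 s hs, mul_assoc, h.sq hs, mul_one]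
  · intro hi
    obtain ⟨n, hn⟩ := hi s₀
    exact ⟨n * ε s₀, by rw [hn]; push_cast; ring⟩

/-- a sorted simplicial chain of top dimension is given by coefficients on the facets -/
theorem eq_fch (hF : ∀ s ∈ F, s.card = k + 1) {w : TC V k} (hw : TK F w) (hs : srt k w = w) :
    w = fch F k (fun s => w (ordT k s)) := by
  classical
  -- the support of w consists of strictly monotone tuples
  have hmono : ∀ p ∈ w.support, StrictMono p := by
    have : ∀ c : TC V k, ∀ p ∈ (srt k c).support, StrictMono p := by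
      intro c p hp
      obtain ⟨q, _, hq⟩ := TIn_lin_aux _ _ _ hp
      rw [srt_single] at hq
      by_cases h : Function.Injective q
      · rw [srt1_of_inj h] at hq
        have h1 := Finsupp.support_smul hq
        have h2 := Finsupp.support_single_subset h1
        rw [Finset.mem_singleton] at h2
        rw [h2]
        exact (Tuple.monotone_sort q).strictMono_of_injective (h.comp (Tuple.sort q).injective)
      · rw [srt1_of_not_inj h] at hq
        simp at hq
    intro p hp
    rw [← hs] at hp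
    exact this w p hp
  have hord : ∀ p ∈ w.support, ∃ s ∈ F, p = ordT k s := by
    intro p hp
    obtain ⟨s, hsF, hps⟩ := hw p hp
    exact ⟨s, hsF, eq_ordT (hmono p hp) (hF s hsF) hps⟩
  have hinj : Set.InjOn (ordT k) (F : Set (Finset V)) := by
    intro s hs t ht hst
    rw [← image_ordT (hF s hs), ← image_ordT (hF t ht), hst]
  have hsub : w.support ⊆ F.image (ordT k) := by
    intro p hp
    obtain ⟨s, hsF, rfl⟩ := hord p hp
    exact Finset.mem_image_of_mem _ hsF
  conv_lhs => rw [fsum w]
  rw [Finset.sum_subset hsub, Finset.sum_image hinj]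
  · rfl
  · intro p _ hp
    rw [Finsupp.notMem_support_iff.1 hp, zero_smul]

/-- tuples with too many entries for a facet are killed by sorting -/
theorem srt_TK_zero (hF : ∀ s ∈ F, s.card ≤ k) {w : TC V k} (hw : TK F w) : srt k w = 0 := by
  rw [fsum w, map_sum]
  refine Finset.sum_eq_zero (fun p hp => ?_)
  rw [map_smul, srt_single, srt1_of_not_inj, smul_zero]
  intro hinj
  obtain ⟨s, hs, hps⟩ := hw p hp
  have h1 : (Finset.univ.image p).card = k + 1 := by
    rw [Finset.card_image_of_injective _ hinj, Finset.card_univ, Fintype.card_fin]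
  have h2 : Finset.univ.image p ⊆ s := by
    intro v hv
    obtain ⟨i, _, rfl⟩ := Finset.mem_image.1 hv
    exact hps i
  have := Finset.card_le_card h2
  have := hF s hs
  omega

theorem fch_TK (hF : ∀ s ∈ F, s.card = k + 1) (f : Finset V → ℝ) : TK F (fch F k f) := by
  refine TK.sum _ _ (fun s hs => TK.smul _ (fun p hp => ?_))
  have h1 := Finsupp.support_single_subset hp
  rw [Finset.mem_singleton] at h1
  exact ⟨s, hs, fun i => by rw [h1]; exact ordT_mem (hF s hs) i⟩

theorem srt_fch (hF : ∀ s ∈ F, s.card = k + 1) (f : Finset V → ℝ) : srt k (fch F k f) = fch F k f := by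
  rw [fch, map_sum]
  refine Finset.sum_congr rfl (fun s hs => ?_)
  rw [map_smul, srt_single, srt1_of_strictMono (ordT_strictMono (hF s hs))]

theorem fch_int {f : Finset V → ℝ} (hf : ∀ s ∈ F, ∃ n : ℤ, f s = n) : IntC (fch F k f) :=
  IntC.sum _ _ (fun s hs => (IntC.single_one _).smul (hf s hs))

/-- **Every singular cycle of top dimension is homologous to a multiple of the fundamental cycle.** -/
theorem top_mult (h : PM F k ε) (z : SC (V → ℝ) (k + 1)) (hz : bd k z = 0) (hzS : SIn (rz F) z) :
    ∃ (m : ℝ) (b : SC (V → ℝ) (k + 2)), SIn (rz F) b ∧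
      z - m • rl V (k + 1) (fch F (k + 1) (fun s => (ε s : ℝ))) = bd (k + 1) b ∧
      (IntC z → (∃ n : ℤ, m = n) ∧ IntC b) := by
  obtain ⟨w, b, hw1, hw2, hw3, hb1, hb2, hi⟩ := exists_simplicial F k z hz hzS
  have hwf := eq_fch (k := k + 1) h.card hw2 hw3
  rw [hwf] at hw1
  obtain ⟨m, hm1, hm2⟩ := h.mult hw1
  refine ⟨m, b, hb1, ?_, ?_⟩
  · rw [← hb2, ← map_smul, ← hm1, ← hwf]
  · intro hzi
    obtain ⟨h1, h2⟩ := hi hzi
    exact ⟨hm2 (fun s => h1 _), h2⟩

/-! ### the fundamental cycle is not a boundary -/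

/-- approximation of the subdivision of simplicial chains -/
noncomputable def phN (V : Type*) [Fintype V] [LinearOrder V] [Nonempty V] (N k : ℕ) : TC V k →ₗ[ℝ] TC V k :=
  (apx V k).comp (((Sd (V → ℝ) k) ^ N).comp (rl V k))

theorem phN_apply (N k : ℕ) (c : TC V k) : phN V N k c = apx V k (((Sd (V → ℝ) k) ^ N) (rl V k c)) := rfl

theorem td_phN (N k : ℕ) (c : TC V (k + 1)) : td k (phN V N (k + 1) c) = phN V N k (td k c) := by
  rw [phN_apply, phN_apply, td_apx, bd_Sd_pow, bd_rl]

theorem aug_phN (N : ℕ) (c : TC V 0) : aug (phN V N 0 c) = aug c := by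
  have h0 : Sd (V → ℝ) 0 = LinearMap.id := by
    refine Finsupp.lhom_ext' (fun σ => LinearMap.ext_ring ?_)
    simp only [LinearMap.comp_apply, Finsupp.lsingle_apply, LinearMap.id_apply]
    rw [Sd_single, sdT_zero, smap_iot]
  have : (aug (A := Fin 1 → V)).comp (phN V N 0) = aug := by
    refine Finsupp.lhom_ext' (fun p => LinearMap.ext_ring ?_)
    simp only [LinearMap.comp_apply, Finsupp.lsingle_apply]
    rw [phN_apply, h0, rl_single]
    have h1 : ((LinearMap.id : SC (V → ℝ) 0 →ₗ[ℝ] SC (V → ℝ) 0)) ^ N = LinearMap.id := by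
      exact one_pow N
    rw [h1, LinearMap.id_apply, apx_single, aug_single, aug_single]
  exact LinearMap.congr_fun this c

theorem lab_mem_of_csx {s : Set V} {x : V → ℝ} (hx : x ∈ csx s) : lab x ∈ s := by
  by_contra h
  have := lab_pos hx.2.1
  rw [hx.2.2 _ h] at this
  exact lt_irrefl _ this

theorem phN_TIn (N k : ℕ) (p : Fin (k + 1) → V) : TIn (Set.range p) (phN V N k (Finsupp.single p 1)) := by
  rw [phN_apply, rl_single]
  have h1 : SIn (csx (Set.range p)) (Finsupp.single (comb (fun i => dl (p i)) : Sx (V → ℝ) k) (1 : ℝ)) :=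
    SIn.single _ (fun t => comb_dl_mem p (Set.range p) (fun i => Set.mem_range_self i) t)
  have h2 := h1.Sd_pow N
  set y := ((Sd (V → ℝ) k) ^ N) (Finsupp.single (comb (fun i => dl (p i)) : Sx (V → ℝ) k) (1 : ℝ))
  rw [fsum y, map_sum]
  refine TIn.sum _ _ (fun σ hσ => ?_)
  rw [map_smul, apx_single]
  have h3 : TIn (Set.range p) (Finsupp.single (labT k σ) (1 : ℝ)) :=
    TIn.single _ (fun i => lab_mem_of_csx (h2 σ hσ (vtx i)))
  exact h3.smul _

/-- the approximation of the subdivided fundamental cycle is the fundamental cycle, after sorting -/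
theorem srt_phN_fch (h : PM F k ε) (N : ℕ) :
    srt (k + 1) (phN V N (k + 1) (fch F (k + 1) (fun s => (ε s : ℝ)))) = fch F (k + 1) (fun s => (ε s : ℝ)) := by
  set w := fch F (k + 1) (fun s => (ε s : ℝ)) with hw
  set D := hK (P := V) (Q := V) (fun _ => LinearMap.id) (phN V N) (fun _ p => p 0) with hD
  have h1 : td (k + 1) (D (k + 1) w) = w - phN V N (k + 1) w - D k (td k w) :=
    td_hK (fun _ => LinearMap.id) (phN V N) (fun _ p => p 0) (fun _ _ => rfl) (fun k c => td_phN N k c)
      (fun c => by rw [aug_phN]; rfl) k w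
  have hcyc : td k w = 0 := h.cyc
  have h2 : TK F (D (k + 1) w) := by
    refine (fch_TK (k := k + 1) h.card _).lin _ (fun p => ?_)
    refine hK_TIn _ _ _ (fun _ p => Set.range p) ?_ ?_ ?_ ?_ (k + 1) p
    · intro k p
      exact TIn.single _ (fun i => ⟨i, rfl⟩)
    · intro k p
      exact phN_TIn N k p
    · intro k p
      exact ⟨0, rfl⟩
    · rintro k p i _ ⟨j, rfl⟩
      exact ⟨_, rfl⟩
  have h3 : srt (k + 2) (D (k + 1) w) = 0 := srt_TK_zero (k := k + 2) (fun s hs => (h.card s hs).le) h2
  rw [hcyc, map_zero, sub_zero] at h1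
  have h4 : phN V N (k + 1) w = w - td (k + 1) (D (k + 1) w) := by rw [h1]; abel
  rw [h4, map_sub, ← td_srt, h3, map_zero, sub_zero, hw, srt_fch (k := k + 1) h.card]

/-- **The fundamental cycle is not a boundary.** -/
theorem top_ne (h : PM F k ε) (m : ℝ) (b : SC (V → ℝ) (k + 2)) (hb : SIn (rz F) b)
    (hm : m • rl V (k + 1) (fch F (k + 1) (fun s => (ε s : ℝ))) = bd (k + 1) b) : m = 0 := by
  obtain ⟨N, hN⟩ := exists_smallS F (k + 2) b hb
  have hbS : SIn (rz F) (((Sd (V → ℝ) (k + 2)) ^ N) b) := hb.Sd_pow N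
  have h1 : srt (k + 2) (apx V (k + 2) (((Sd (V → ℝ) (k + 2)) ^ N) b)) = 0 :=
    srt_TK_zero (k := k + 2) (fun s hs => (h.card s hs).le) (apx_TK F (k + 2) _ hbS (hN N le_rfl))
  have h2 : srt (k + 1) (apx V (k + 1) (((Sd (V → ℝ) (k + 1)) ^ N) (bd (k + 1) b))) = 0 := by
    rw [← bd_Sd_pow, ← td_apx, ← td_srt, h1, map_zero]
  rw [← hm, map_smul, map_smul, map_smul, ← phN_apply, srt_phN_fch h N] at h2
  obtain ⟨s, hs, _⟩ := h.conn
  have h3 := congrArg (fun c : TC V (k + 1) => c (ordT (k + 1) s)) h2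
  simp only [Finsupp.smul_apply, Finsupp.zero_apply, smul_eq_mul] at h3
  have h4 : fch F (k + 1) (fun s => (ε s : ℝ)) (ordT (k + 1) s) = ε s := by
    rw [fch, Finsupp.finsetSum_apply, Finset.sum_eq_single s]
    · simp
    · intro t ht hts
      rw [Finsupp.smul_apply, Finsupp.single_apply, if_neg, smul_zero]
      intro he
      apply hts
      rw [← image_ordT (h.card s hs), ← image_ordT (h.card t ht), he]
    · intro h5; exact absurd hs h5
  rw [h4] at h3
  rcases mul_eq_zero.1 h3 with h5 | h5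
  · exact h5
  · have := h.sq hs
    rw [h5] at this
    norm_num at this

end SV
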